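import Pool.Agent.LE.StmtsA
import Pool.Agent.Helper54_LY.Chn3
import Pool.Agent.Helper75_Mob.Transfer

/-!
# `- log |G|` in a cube: the moments (FMN)
-/

set_option autoImplicit false
set_option linter.unusedSectionVars false

open scoped Topology ENNReal
open MeasureTheory Filter ProbabilityTheory

noncomputable section

namespace Pool.Agent.LE.H54

open Pool.Agent.Anderson Pool.Agent.Loc Pool.Agent.Mob Pool.Agent.Helper54.Bal Pool.Agent.LY

variable {d : ℕ}

/-- a neighbour closer to `c`, in the cube -/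
theorem closer_in {c s : Site d} {N : ℕ} (hc : c ∈ box (0 : Site d) N)
    (hs : s ∈ box (0 : Site d) N) (h : s ≠ c) :
    ∃ s' ∈ box (0 : Site d) N, l1 c s' + 1 = l1 c s ∧ hop s' s ≠ 0 := by
  obtain ⟨i, hi⟩ := Function.ne_iff.1 h
  have hci := sd_le_iff.1 (mem_box.1 hc) i
  have hsi := sd_le_iff.1 (mem_box.1 hs) i
  rw [Pi.zero_apply, zero_sub, abs_neg, abs_le] at hci hsi
  obtain ⟨a, ha, hab, hab2⟩ : ∃ a : ℤ, (a = 1 ∨ a = -1) ∧
      (s i + a - c i).natAbs + 1 = (s i - c i).natAbs ∧ |s i + a| ≤ (N : ℤ) := by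
    rcases lt_or_gt_of_ne hi with h1 | h1
    · refine ⟨1, Or.inl rfl, by omega, ?_⟩
      rw [abs_le]
      constructor <;> omega
    · refine ⟨-1, Or.inr rfl, by omega, ?_⟩
      rw [abs_le]
      constructor <;> omega
  refine ⟨s + Pi.single i a, ?_, ?_, hop_step s i ha⟩
  · rw [mem_box, sd_le_iff]
    intro j
    have h3 := sd_le_iff.1 (mem_box.1 hs) j
    rw [Pi.zero_apply, zero_sub, abs_neg] at h3 ⊢
    by_cases hj : j = i
    · subst hj
      rw [Pi.add_apply, Pi.single_eq_same]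
      exact hab2
    · rw [Pi.add_apply, Pi.single_eq_of_ne hj, add_zero]
      exact h3
  · unfold l1
    rw [← Finset.add_sum_erase _ _ (Finset.mem_univ i), ← Finset.add_sum_erase _ _
      (Finset.mem_univ i)]
    have h2 : ∑ j ∈ Finset.univ.erase i, ((s + Pi.single i a : Site d) j - c j).natAbs =
        ∑ j ∈ Finset.univ.erase i, (s j - c j).natAbs := by
      refine Finset.sum_congr rfl fun j hj => ?_
      rw [Pi.add_apply, Pi.single_eq_of_ne (Finset.ne_of_mem_erase hj), add_zero]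
    rw [h2, Pi.add_apply, Pi.single_eq_same]
    omega

theorem path_in {σ E C1 C2 p : ℝ} {N : ℕ} (hp : 1 ≤ p) (hC1 : 0 ≤ C1) (hC2 : 0 ≤ C2)
    (h1 : ∀ x y : Site d, x ∈ box (0 : Site d) N → y ∈ box (0 : Site d) N →
      (x = y ∨ hop x y ≠ 0) →
      Nn (PL (gl σ) (box (0 : Site d) N)) p (fun V => Dp (gr V (box (0 : Site d) N) E x y)) ≤
        ENNReal.ofReal C1)
    (h2 : ∀ x u y : Site d, Nn (PL (gl σ) (box (0 : Site d) N)) p
      (fun V => Rp (gr V (box (0 : Site d) N) E x u) (gr V (box (0 : Site d) N) E u y)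
        (gr V (box (0 : Site d) N) E x y)) ≤ ENNReal.ofReal C2)
    {c : Site d} (hc : c ∈ box (0 : Site d) N) (m : ℕ) :
    ∀ s : Site d, l1 c s = m → s ∈ box (0 : Site d) N →
      Nn (PL (gl σ) (box (0 : Site d) N)) p (fun V => Dp (gr V (box (0 : Site d) N) E c s)) ≤
        ENNReal.ofReal ((m + 1) * (C1 + C2)) := by
  set Λ := box (0 : Site d) N with hΛ
  induction m with
  | zero =>
    intro s hs hn
    have hsc : s = c := by
      by_contra hne
      obtain ⟨s', -, hs', -⟩ := closer_in hc hn hne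
      omega
    subst hsc
    refine (h1 s s hc hc (Or.inl rfl)).trans (ENNReal.ofReal_le_ofReal ?_)
    push_cast
    linarith
  | succ m ih =>
    intro s hs hn
    have hne : s ≠ c := by
      rintro rfl
      unfold l1 at hs
      simp at hs
    obtain ⟨s', hsm', hs', hhop⟩ := closer_in hc hn hne
    have hm := ih s' (by omega) hsm'
    have mD : ∀ x y, Measurable fun V : Site d → ℝ => Dp (gr V Λ E x y) := fun x y =>
      measurable_Dp.comp (measurable_gr Λ E x y)
    have mR : Measurable fun V : Site d → ℝ =>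
        Rp (gr V Λ E c s') (gr V Λ E s' s) (gr V Λ E c s) :=
      measurable_Rp (measurable_gr Λ E _ _) (measurable_gr Λ E _ _) (measurable_gr Λ E _ _)
    calc Nn (PL (gl σ) Λ) p (fun V => Dp (gr V Λ E c s))
        ≤ Nn (PL (gl σ) Λ) p (fun V => (Dp (gr V Λ E c s') + Dp (gr V Λ E s' s)) +
            Rp (gr V Λ E c s') (gr V Λ E s' s) (gr V Λ E c s)) :=
          Nn_mono (by linarith) fun V => Dp_le _ _ _
      _ ≤ (Nn (PL (gl σ) Λ) p (fun V => Dp (gr V Λ E c s')) +
            Nn (PL (gl σ) Λ) p (fun V => Dp (gr V Λ E s' s))) +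
            Nn (PL (gl σ) Λ) p (fun V => Rp (gr V Λ E c s') (gr V Λ E s' s) (gr V Λ E c s)) :=
          (Nn_add hp ((mD _ _).add (mD _ _)) mR).trans
            (add_le_add (Nn_add hp (mD _ _) (mD _ _)) le_rfl)
      _ ≤ (ENNReal.ofReal ((m + 1) * (C1 + C2)) + ENNReal.ofReal C1) + ENNReal.ofReal C2 := by
          gcongr
          · exact h1 s' s hsm' hn (Or.inr hhop)
          · exact h2 c s' s
      _ = _ := by
          rw [← ENNReal.ofReal_add (by positivity) hC1, ← ENNReal.ofReal_add (by positivity) hC2]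
          congr 1
          push_cast
          ring

/-- the integral of a function of the Green functions of `Λ` -/
theorem lint_PP {ν : Measure ℝ} [IsProbabilityMeasure ν] (Λ : Finset (Site d))
    {G : (Site d → ℝ) → ℝ≥0∞} (hG : Measurable G) (hl : ∀ V V' : Site d → ℝ,
      (∀ x ∈ Λ, V x = V' x) → G V = G V') :
    ∫⁻ V, G V ∂(PP d ν) = ∫⁻ V, G V ∂(PL ν Λ) := by
  rw [← H75.map_cut, lintegral_map hG (H75.measurable_cut Λ)]
  refine lintegral_congr fun V => ?_
  exact (hl _ _ fun x hx => H75.cut_apply hx V).symm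

/-- the positive part of `log |g|` -/
def Up (g : ℝ) : ℝ≥0∞ := ENNReal.ofReal (Real.log |g|)

theorem measurable_Up : Measurable Up := by
  unfold Up
  fun_prop

theorem Up_sq_le (g : ℝ) : (Up g) ^ (2 : ℝ) ≤ ENNReal.ofReal 16 * ENNReal.ofReal (√|g|) := by
  unfold Up
  rcases eq_or_ne g 0 with rfl | hg
  · simp
  have hg' : 0 < |g| := abs_pos.2 hg
  have h1 : Real.log |g| ≤ 4 * |g| ^ (1 / 4 : ℝ) := by
    have h2 := Real.log_le_rpow_div hg'.le (ε := 1 / 4) (by norm_num)
    linarith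
  have h3 := ENNReal.rpow_le_rpow (ENNReal.ofReal_le_ofReal h1) (z := 2) (by norm_num)
  refine h3.trans (le_of_eq ?_)
  rw [ENNReal.ofReal_rpow_of_pos (by positivity), ← ENNReal.ofReal_mul (by norm_num)]
  congr 1
  rw [Real.mul_rpow (by norm_num) (by positivity), ← Real.rpow_mul hg'.le, Real.sqrt_eq_rpow]
  norm_num

theorem ofReal_sq_le (g : ℝ) : ENNReal.ofReal ((-Real.log |g|) ^ 2) ≤
    (Dp g) ^ (2 : ℝ) + (Up g) ^ (2 : ℝ) := by
  rcases eq_or_ne g 0 with rfl | hg
  · simp [Dp]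
  unfold Dp Up
  rw [if_neg hg]
  rcases le_total 0 (-Real.log |g|) with h | h
  · refine le_trans (le_of_eq ?_) le_self_add
    rw [ENNReal.ofReal_rpow_of_nonneg h (by norm_num), Real.rpow_two]
  · refine le_trans (le_of_eq ?_) le_add_self
    rw [ENNReal.ofReal_rpow_of_nonneg (by linarith) (by norm_num), Real.rpow_two, neg_sq]

/-- from `lintegral` to `integral` -/
theorem int_le {Ω : Type*} [MeasurableSpace Ω] {P : Measure Ω} {f : Ω → ℝ} (hf : Measurable f)
    (h0 : ∀ ω, 0 ≤ f ω) {c : ℝ} (hc : 0 ≤ c) (h : ∫⁻ ω, ENNReal.ofReal (f ω) ∂P ≤ ENNReal.ofReal c) :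
    Integrable f P ∧ ∫ ω, f ω ∂P ≤ c := by
  constructor
  · refine ⟨hf.aestronglyMeasurable, ?_⟩
    rw [hasFiniteIntegral_iff_ofReal (Filter.Eventually.of_forall h0)]
    exact h.trans_lt ENNReal.ofReal_lt_top
  · rw [integral_eq_lintegral_of_nonneg_ae (Filter.Eventually.of_forall h0)
      hf.aestronglyMeasurable]
    exact ENNReal.toReal_le_of_le_ofReal hc h

theorem fmn : FmnStmt := by
  intro d σ E hd hσ
  obtain ⟨C1, hC1, h1⟩ := near (d := d) hσ E (p := 2) (by norm_num)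
  obtain ⟨C2, hC2, h2⟩ := ratio (d := d) hσ E (p := 2) (by norm_num)
  have hν := bddDens_gl hσ
  set ρ : ℝ := 1 / |σ| with hρdef
  have hρ : 0 < ρ := hν.1
  set C3 : ℝ := 16 * (2 * √(6 * ρ)) with hC3def
  have hC3 : 0 ≤ C3 := by positivity
  have hd1 : (1 : ℝ) ≤ d := by exact_mod_cast hd
  set A : ℝ := (d * (C1 + C2)) ^ 2 with hA
  have hA0 : 0 ≤ A := sq_nonneg _
  refine ⟨A + C3 + C2 ^ 2 + 1, by positivity, ?_⟩
  intro N
  set Λ := box (0 : Site d) N with hΛ
  have mg : ∀ x y, Measurable fun V : Site d → ℝ => gr V Λ E x y := fun x y =>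
    measurable_gr Λ E x y
  have mD : ∀ x y, Measurable fun V : Site d → ℝ => Dp (gr V Λ E x y) := fun x y =>
    measurable_Dp.comp (mg x y)
  have mU : ∀ x y, Measurable fun V : Site d → ℝ => Up (gr V Λ E x y) := fun x y =>
    measurable_Up.comp (mg x y)
  have mDL : ∀ x y, Measurable fun V : Site d → ℝ => DL Λ E V x y := fun x y => by
    unfold DL
    exact (Real.measurable_log.comp (mg x y).abs).neg
  -- the three moments
  have hDp : ∀ x ∈ Λ, ∀ y ∈ Λ, ∫⁻ V, (Dp (gr V Λ E x y)) ^ (2 : ℝ) ∂(PP d (gl σ)) ≤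
      ENNReal.ofReal (A * ((sd x y : ℝ) + 1) ^ 2) := by
    intro x hx y hy
    rw [lint_PP Λ ((mD x y).pow_const _) (fun V V' hV => by rw [gr_congr hV])]
    rw [← Nn_rpow (by norm_num)]
    have hp := path_in (σ := σ) (E := E) (p := 2) (N := N) (by norm_num) hC1 hC2
      (fun x y hx hy hxy => h1 Λ x y hx hy hxy) (fun x u y => h2 Λ x u y) hx (l1 x y) y rfl hy
    refine (ENNReal.rpow_le_rpow hp (by norm_num)).trans ?_
    rw [ENNReal.ofReal_rpow_of_nonneg (by positivity) (by norm_num), Real.rpow_two]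
    apply ENNReal.ofReal_le_ofReal
    have h3 : (l1 x y : ℝ) ≤ d * sd x y := by exact_mod_cast l1_le x y le_rfl
    have h4 : 0 ≤ C1 + C2 := by linarith
    have h5 : ((l1 x y : ℝ) + 1) ≤ d * ((sd x y : ℝ) + 1) := by linarith
    rw [hA, ← mul_pow]
    apply pow_le_pow_left₀ (by positivity)
    calc ((l1 x y : ℝ) + 1) * (C1 + C2) ≤ d * ((sd x y : ℝ) + 1) * (C1 + C2) :=
          mul_le_mul_of_nonneg_right h5 h4
      _ = _ := by ring
  have hUp : ∀ x y, ∫⁻ V, (Up (gr V Λ E x y)) ^ (2 : ℝ) ∂(PP d (gl σ)) ≤ ENNReal.ofReal C3 := by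
    intro x y
    rw [lint_PP Λ ((mU x y).pow_const _) (fun V V' hV => by rw [gr_congr hV])]
    calc ∫⁻ V, (Up (gr V Λ E x y)) ^ (2 : ℝ) ∂(PL (gl σ) Λ)
        ≤ ∫⁻ V, ENNReal.ofReal 16 * ENNReal.ofReal (√|gr V Λ E x y|) ∂(PL (gl σ) Λ) :=
          lintegral_mono fun V => Up_sq_le _
      _ = ENNReal.ofReal 16 * ∫⁻ V, ENNReal.ofReal (√|gr V Λ E x y|) ∂(PL (gl σ) Λ) :=
          lintegral_const_mul' _ _ ENNReal.ofReal_ne_top
      _ ≤ ENNReal.ofReal 16 * ENNReal.ofReal (2 * √(6 * ρ)) := by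
          gcongr
          exact PL_sqrt hν Λ E x y
      _ = _ := by rw [← ENNReal.ofReal_mul (by norm_num)]
  have hRp : ∀ x u y, ∫⁻ V, (Rp (gr V Λ E x u) (gr V Λ E u y) (gr V Λ E x y)) ^ (2 : ℝ)
      ∂(PP d (gl σ)) ≤ ENNReal.ofReal (C2 ^ 2) := by
    intro x u y
    rw [lint_PP Λ ((measurable_Rp (mg x u) (mg u y) (mg x y)).pow_const _)
      (fun V V' hV => by rw [gr_congr hV, gr_congr hV, gr_congr hV])]
    rw [← Nn_rpow (by norm_num)]
    refine (ENNReal.rpow_le_rpow (h2 Λ x u y) (by norm_num)).trans ?_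
    rw [ENNReal.ofReal_rpow_of_nonneg (by positivity) (by norm_num), Real.rpow_two]
  have hne : ∀ x ∈ Λ, ∀ y ∈ Λ, ∀ᵐ V ∂(PP d (gl σ)), gr V Λ E x y ≠ 0 := by
    intro x hx y hy
    have h := ae_lt_top ((mD x y).pow_const 2)
      (ne_top_of_le_ne_top ENNReal.ofReal_ne_top (hDp x hx y hy))
    filter_upwards [h] with V hV h0
    rw [h0] at hV
    simp [Dp] at hV
  refine ⟨⟨mDL, ?_, ?_, ?_, ?_, ?_⟩, ?_⟩
  · intro V x y
    unfold DL
    rw [gr_symm]
  · intro x hx y hy
    have h := int_le (P := PP d (gl σ)) ((mDL x y).pow_const 2) (fun V => sq_nonneg _)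
      (c := A * ((sd x y : ℝ) + 1) ^ 2 + C3) (by positivity) ?_
    · exact h.1
    · calc ∫⁻ V, ENNReal.ofReal (DL Λ E V x y ^ 2) ∂(PP d (gl σ))
          ≤ ∫⁻ V, ((Dp (gr V Λ E x y)) ^ (2 : ℝ) + (Up (gr V Λ E x y)) ^ (2 : ℝ))
            ∂(PP d (gl σ)) := lintegral_mono fun V => ofReal_sq_le _
        _ = ∫⁻ V, (Dp (gr V Λ E x y)) ^ (2 : ℝ) ∂(PP d (gl σ)) +
            ∫⁻ V, (Up (gr V Λ E x y)) ^ (2 : ℝ) ∂(PP d (gl σ)) :=
            lintegral_add_left ((mD x y).pow_const _) _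
        _ ≤ ENNReal.ofReal (A * ((sd x y : ℝ) + 1) ^ 2) + ENNReal.ofReal C3 :=
            add_le_add (hDp x hx y hy) (hUp x y)
        _ = _ := by rw [← ENNReal.ofReal_add (by positivity) hC3]
  · intro x hx y hy
    have h := int_le (P := PP d (gl σ)) ((mDL x y).pow_const 2) (fun V => sq_nonneg _)
      (c := A * ((sd x y : ℝ) + 1) ^ 2 + C3) (by positivity) ?_
    · refine h.2.trans ?_
      have h3 : (1 : ℝ) ≤ ((sd x y : ℝ) + 1) ^ 2 := by
        have : (0 : ℝ) ≤ sd x y := Nat.cast_nonneg _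
        nlinarith
      nlinarith [mul_le_mul_of_nonneg_left h3 hC3, mul_nonneg (sq_nonneg C2) (zero_le_one.trans h3)]
    · calc ∫⁻ V, ENNReal.ofReal (DL Λ E V x y ^ 2) ∂(PP d (gl σ))
          ≤ ∫⁻ V, ((Dp (gr V Λ E x y)) ^ (2 : ℝ) + (Up (gr V Λ E x y)) ^ (2 : ℝ))
            ∂(PP d (gl σ)) := lintegral_mono fun V => ofReal_sq_le _
        _ = ∫⁻ V, (Dp (gr V Λ E x y)) ^ (2 : ℝ) ∂(PP d (gl σ)) +
            ∫⁻ V, (Up (gr V Λ E x y)) ^ (2 : ℝ) ∂(PP d (gl σ)) :=
            lintegral_add_left ((mD x y).pow_const _) _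
        _ ≤ ENNReal.ofReal (A * ((sd x y : ℝ) + 1) ^ 2) + ENNReal.ofReal C3 :=
            add_le_add (hDp x hx y hy) (hUp x y)
        _ = _ := by rw [← ENNReal.ofReal_add (by positivity) hC3]
  · intro x hx y hy
    have h := int_le (P := PP d (gl σ)) ((measurable_const.max (mDL x y).neg).pow_const 2)
      (f := fun V => (max 0 (-DL Λ E V x y)) ^ 2) (fun V => sq_nonneg _)
      (c := C3) hC3 ?_
    · refine h.2.trans ?_
      have := sq_nonneg C2
      linarith
    · refine le_trans (lintegral_mono fun V => ?_) (hUp x y)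
      unfold DL Up
      rw [neg_neg]
      rcases le_total 0 (Real.log |gr V Λ E x y|) with h0 | h0
      · rw [max_eq_right h0, ENNReal.ofReal_rpow_of_nonneg h0 (by norm_num), Real.rpow_two]
      · rw [max_eq_left h0]
        simp
  · intro x hx u hu y hy
    have h := int_le (P := PP d (gl σ))
      ((measurable_const.max (((mDL x y).sub (mDL x u)).sub (mDL u y))).pow_const 2)
      (f := fun V => (max 0 (DL Λ E V x y - DL Λ E V x u - DL Λ E V u y)) ^ 2)
      (fun V => sq_nonneg _) (c := C2 ^ 2) (sq_nonneg _) ?_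
    · refine h.2.trans ?_
      linarith
    · refine le_trans (lintegral_mono_ae ?_) (hRp x u y)
      filter_upwards [hne x hx u hu, hne u hu y hy, hne x hx y hy] with V ha hb hc
      have ha' : |gr V Λ E x u| ≠ 0 := abs_ne_zero.2 ha
      have hb' : |gr V Λ E u y| ≠ 0 := abs_ne_zero.2 hb
      have hc' : |gr V Λ E x y| ≠ 0 := abs_ne_zero.2 hc
      unfold DL Rp
      rw [if_neg hc]
      have e : -Real.log |gr V Λ E x y| - -Real.log |gr V Λ E x u| - -Real.log |gr V Λ E u y| =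
          Real.log (|gr V Λ E x u| * |gr V Λ E u y| / |gr V Λ E x y|) := by
        rw [Real.log_div (mul_ne_zero ha' hb') hc', Real.log_mul ha' hb']
        ring
      rw [e]
      set L := Real.log (|gr V Λ E x u| * |gr V Λ E u y| / |gr V Λ E x y|)
      rcases le_total 0 L with h0 | h0
      · rw [max_eq_right h0, ENNReal.ofReal_rpow_of_nonneg h0 (by norm_num), Real.rpow_two]
      · rw [max_eq_left h0]
        simp
  · intro x hx y hy
    have h := hne x hx y hy
    rw [ae_iff] at h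
    simpa using h

end Pool.Agent.LE.H54
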