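import Pool.Agent.LE.StmtsG
import Pool.Agent.Helper54_LE.FMN

/-!
# The Lyapunov exponent exists at every energy (LYA)
-/

set_option autoImplicit false
set_option linter.unusedSectionVars false

open scoped Topology ENNReal
open MeasureTheory Filter ProbabilityTheory

noncomputable section

namespace Pool.Agent.LE.H54

open Pool.Agent.Anderson Pool.Agent.Loc Pool.Agent.Mob Pool.Agent.Helper54.Bal

variable {d : ℕ}

/-- the probability of decay -/
def pG (d : ℕ) (σ E κ : ℝ) (L : ℕ) : ℝ≥0∞ := PP d (gl σ) {V | SG V L κ E 0}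

/-- the probability that there is no decay -/
def qG (d : ℕ) (σ E κ : ℝ) (L : ℕ) : ℝ≥0∞ := PP d (gl σ) {V | ¬ SG V L κ E 0}

theorem one_le_pq (σ E κ : ℝ) (L : ℕ) : 1 ≤ pG d σ E κ L + qG d σ E κ L := by
  unfold pG qG
  have h : (Set.univ : Set (Site d → ℝ)) ⊆ {V | SG V L κ E 0} ∪ {V | ¬ SG V L κ E 0} := by
    intro V _
    by_cases h : SG V L κ E 0
    · exact Or.inl h
    · exact Or.inr h
  calc (1 : ℝ≥0∞) = PP d (gl σ) Set.univ := (measure_univ).symm
    _ ≤ PP d (gl σ) ({V | SG V L κ E 0} ∪ {V | ¬ SG V L κ E 0}) := measure_mono h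
    _ ≤ _ := measure_union_le _ _

theorem pG_anti (σ E : ℝ) {κ κ' : ℝ} (h : κ ≤ κ') (L : ℕ) : pG d σ E κ' L ≤ pG d σ E κ L := by
  refine measure_mono ?_
  rintro V ⟨h1, h2⟩
  refine ⟨h1, fun u hu => (h2 u hu).trans (Real.exp_le_exp.2 ?_)⟩
  have : (0 : ℝ) ≤ L := Nat.cast_nonneg L
  nlinarith

theorem PP_det {ν : Measure ℝ} [IsProbabilityMeasure ν] {ρ : ℝ} (hν : BddDens ν ρ)
    (Λ : Finset (Site d)) (E : ℝ) : PP d ν {V | (RM V Λ E).det = 0} = 0 := by
  have h := H75.PP_le_PL (ν := ν) (Λ := Λ) (S := {V : Site d → ℝ | (RM V Λ E).det = 0})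
    (fun V V' hV => by rw [Set.mem_ofPred_eq, Set.mem_ofPred_eq, RM_congr hV])
  rw [PL_det hν Λ Λ le_rfl E] at h
  exact nonpos_iff_eq_zero.1 h

theorem PP_weak {ν : Measure ℝ} [IsProbabilityMeasure ν] {ρ : ℝ} (hν : BddDens ν ρ)
    (Λ : Finset (Site d)) (E : ℝ) (x y : Site d) {τ : ℝ} (hτ : 0 < τ) :
    PP d ν {V | τ < |gr V Λ E x y|} ≤ ENNReal.ofReal (6 * ρ / τ) := by
  refine (H75.PP_le_PL (ν := ν) (Λ := Λ) (S := {V : Site d → ℝ | τ < |gr V Λ E x y|})
    (fun V V' hV => by rw [Set.mem_ofPred_eq, Set.mem_ofPred_eq, gr_congr hV])).trans ?_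
  exact PL_weak hν Λ E x y hτ

/-- the failure of decay at a negative rate -/
theorem qG_neg_le {σ : ℝ} (hσ : σ ≠ 0) (E κ : ℝ) (L : ℕ) :
    qG d σ E κ L ≤ ENNReal.ofReal ((2 * L + 1) ^ d * (6 * (1 / |σ|) * Real.exp (κ * L))) := by
  have hν := bddDens_gl hσ
  have hρ := hν.1
  have hsub : {V : Site d → ℝ | ¬ SG V L κ E 0} ⊆ {V | (RM V (box (0 : Site d) L) E).det = 0} ∪
      ⋃ u ∈ box (0 : Site d) L, {V | Real.exp (-κ * L) < |gr V (box (0 : Site d) L) E 0 u|} := by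
    intro V hV
    by_contra hc
    simp only [Set.mem_union, Set.mem_iUnion, not_or, not_exists, Set.mem_ofPred_eq] at hc
    apply hV
    refine ⟨hc.1, fun u hu => ?_⟩
    exact not_lt.1 (hc.2 u (mem_box.2 hu.le))
  calc qG d σ E κ L ≤ PP d (gl σ) ({V | (RM V (box (0 : Site d) L) E).det = 0} ∪
      ⋃ u ∈ box (0 : Site d) L, {V | Real.exp (-κ * L) < |gr V (box (0 : Site d) L) E 0 u|}) :=
        measure_mono hsub
    _ ≤ PP d (gl σ) {V | (RM V (box (0 : Site d) L) E).det = 0} +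
        PP d (gl σ) (⋃ u ∈ box (0 : Site d) L,
          {V | Real.exp (-κ * L) < |gr V (box (0 : Site d) L) E 0 u|}) := measure_union_le _ _
    _ ≤ 0 + ∑ u ∈ box (0 : Site d) L, ENNReal.ofReal (6 * (1 / |σ|) / Real.exp (-κ * L)) := by
        refine add_le_add (PP_det hν _ E).le ?_
        refine (measure_biUnion_finset_le _ _).trans (Finset.sum_le_sum fun u _ => ?_)
        exact PP_weak hν _ E 0 u (Real.exp_pos _)
    _ = _ := by
        rw [zero_add, Finset.sum_const, card_box, nsmul_eq_mul]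
        have h1 : 6 * (1 / |σ|) / Real.exp (-κ * L) = 6 * (1 / |σ|) * Real.exp (κ * L) := by
          rw [neg_mul, Real.exp_neg]
          field_simp
        rw [h1, ENNReal.ofReal_mul (p := (2 * (L : ℝ) + 1) ^ d) (by positivity)]
        congr 1
        rw [← ENNReal.ofReal_natCast]
        push_cast
        rfl

theorem tendsto_pow_exp (d : ℕ) {κ : ℝ} (hκ : κ < 0) (A : ℝ) :
    Tendsto (fun L : ℕ => (2 * (L : ℝ) + 1) ^ d * (A * Real.exp (κ * L))) atTop (𝓝 0) := by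
  have h1 : Tendsto (fun x : ℝ => x ^ d * Real.exp (-x)) atTop (𝓝 0) :=
    Real.tendsto_pow_mul_exp_neg_atTop_nhds_zero d
  have h2 : Tendsto (fun L : ℕ => -κ * (L : ℝ)) atTop atTop :=
    tendsto_natCast_atTop_atTop.const_mul_atTop (by linarith)
  have h3 := (h1.comp h2).const_mul ((3 / -κ) ^ d * |A|)
  rw [mul_zero] at h3
  refine squeeze_zero_norm' ?_ h3
  filter_upwards [eventually_ge_atTop 1] with L hL
  have hL1 : (1 : ℝ) ≤ L := by exact_mod_cast hL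
  have hk : 0 < -κ := by linarith
  simp only [Function.comp]
  rw [norm_mul, norm_mul, Real.norm_eq_abs, Real.norm_eq_abs, Real.norm_eq_abs, Real.abs_exp,
    abs_of_nonneg (by positivity)]
  have h4 : (2 * (L : ℝ) + 1) ^ d ≤ (3 * L) ^ d := by
    apply pow_le_pow_left₀ (by positivity)
    linarith
  have h5 : (3 * (L : ℝ)) ^ d = (3 / -κ) ^ d * (-κ * L) ^ d := by
    rw [← mul_pow]
    congr 1
    rw [← mul_assoc, div_mul_cancel₀ _ hk.ne']
  have h6 : -(-κ * (L : ℝ)) = κ * L := by ring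
  rw [h6]
  calc (2 * (L : ℝ) + 1) ^ d * (|A| * Real.exp (κ * L)) ≤
      (3 * L) ^ d * (|A| * Real.exp (κ * L)) := mul_le_mul_of_nonneg_right h4 (by positivity)
    _ = _ := by rw [h5]; ring

theorem tendsto_qG {σ : ℝ} (hσ : σ ≠ 0) (E : ℝ) {κ : ℝ} (hκ : κ < 0) :
    Tendsto (qG d σ E κ) atTop (𝓝 0) := by
  have h1 := ENNReal.tendsto_ofReal (tendsto_pow_exp d hκ (6 * (1 / |σ|)))
  rw [ENNReal.ofReal_zero] at h1
  exact tendsto_of_tendsto_of_tendsto_of_le_of_le tendsto_const_nhds h1 (fun _ => zero_le)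
    fun L => qG_neg_le hσ E κ L

/-- the probability of decay at a large rate -/
theorem pG_large (hd : 1 ≤ d) {σ : ℝ} (hσ : σ ≠ 0) (E : ℝ) : ∃ C : ℝ, 0 < C ∧
    ∀ (κ : ℝ) (L : ℕ), 0 < κ → 1 ≤ L → pG d σ E κ L ≤ ENNReal.ofReal (4 * C / κ ^ 2) := by
  obtain ⟨C, hC, h⟩ := fmn d σ E hd hσ
  refine ⟨C, hC, fun κ L hκ hL => ?_⟩
  have hL1 : (1 : ℝ) ≤ L := by exact_mod_cast hL
  obtain ⟨hF, hne⟩ := h L
  set u : Site d := Pi.single ⟨0, hd⟩ (L : ℤ) with hu
  have hsd : sd (0 : Site d) u = L := by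
    apply le_antisymm
    · rw [sd_le_iff]
      intro i
      rw [Pi.zero_apply, zero_sub, abs_neg]
      by_cases hi : i = ⟨0, hd⟩
      · rw [hu, hi, Pi.single_eq_same]
        simp
      · rw [hu, Pi.single_eq_of_ne hi]
        simp
    · have h1 := sd_le_iff.1 (le_refl (sd (0 : Site d) u)) ⟨0, hd⟩
      rw [Pi.zero_apply, zero_sub, abs_neg, hu, Pi.single_eq_same] at h1
      simpa using h1
  have h0 : (0 : Site d) ∈ box (0 : Site d) L := mem_box.2 (by rw [sd_self]; exact Nat.zero_le _)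
  have huL : u ∈ box (0 : Site d) L := mem_box.2 hsd.le
  have hsub : {V : Site d → ℝ | SG V L κ E 0} ⊆
      {V | gr V (box (0 : Site d) L) E 0 u = 0} ∪
        {V | ENNReal.ofReal ((κ * L) ^ 2) ≤
          ENNReal.ofReal (DL (box (0 : Site d) L) E V 0 u ^ 2)} := by
    rintro V ⟨_, h2⟩
    by_cases hg : gr V (box (0 : Site d) L) E 0 u = 0
    · exact Or.inl hg
    · right
      rw [Set.mem_ofPred_eq]
      apply ENNReal.ofReal_le_ofReal
      apply pow_le_pow_left₀ (by positivity)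
      unfold DL
      have h3 := Real.log_le_log (abs_pos.2 hg) (h2 u hsd)
      rw [Real.log_exp] at h3
      linarith
  have hpos : 0 < (κ * L) ^ 2 := by positivity
  have hm : Measurable fun V : Site d → ℝ =>
      ENNReal.ofReal (DL (box (0 : Site d) L) E V 0 u ^ 2) :=
    ((hF.meas 0 u).pow_const 2).ennreal_ofReal
  calc pG d σ E κ L ≤ PP d (gl σ) ({V | gr V (box (0 : Site d) L) E 0 u = 0} ∪
        {V | ENNReal.ofReal ((κ * L) ^ 2) ≤
          ENNReal.ofReal (DL (box (0 : Site d) L) E V 0 u ^ 2)}) := measure_mono hsub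
    _ ≤ PP d (gl σ) {V | gr V (box (0 : Site d) L) E 0 u = 0} +
        PP d (gl σ) {V | ENNReal.ofReal ((κ * L) ^ 2) ≤
          ENNReal.ofReal (DL (box (0 : Site d) L) E V 0 u ^ 2)} := measure_union_le _ _
    _ ≤ 0 + (∫⁻ V, ENNReal.ofReal (DL (box (0 : Site d) L) E V 0 u ^ 2) ∂(PP d (gl σ))) /
          ENNReal.ofReal ((κ * L) ^ 2) := by
        refine add_le_add (hne 0 h0 u huL).le ?_
        refine meas_ge_le_lintegral_div hm.aemeasurable ?_ ENNReal.ofReal_ne_top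
        rw [Ne, ENNReal.ofReal_eq_zero, not_le]
        exact hpos
    _ ≤ ENNReal.ofReal (C * ((L : ℝ) + 1) ^ 2) / ENNReal.ofReal ((κ * L) ^ 2) := by
        rw [zero_add]
        gcongr
        rw [← ofReal_integral_eq_lintegral_ofReal (hF.int 0 h0 u huL)
          (Eventually.of_forall fun V => sq_nonneg _)]
        apply ENNReal.ofReal_le_ofReal
        have h4 := hF.sq 0 h0 u huL
        rw [hsd] at h4
        exact h4
    _ = ENNReal.ofReal (C * ((L : ℝ) + 1) ^ 2 / (κ * L) ^ 2) :=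
        (ENNReal.ofReal_div_of_pos hpos).symm
    _ ≤ _ := by
        apply ENNReal.ofReal_le_ofReal
        rw [div_le_div_iff₀ hpos (by positivity)]
        have h5 : ((L : ℝ) + 1) ^ 2 ≤ 4 * L ^ 2 := by nlinarith
        calc C * ((L : ℝ) + 1) ^ 2 * κ ^ 2 ≤ C * (4 * L ^ 2) * κ ^ 2 := by gcongr
          _ = _ := by ring

/-- the rates at which decay has a positive probability at arbitrarily large scales -/
def SG54 (d : ℕ) (σ E : ℝ) : Set ℝ :=
  {κ | ∃ δ : ℝ, 0 < δ ∧ ∀ L₁ : ℕ, ∃ L : ℕ, L₁ ≤ L ∧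
    ENNReal.ofReal δ ≤ PP d (gl σ) {V | SG V L κ E 0}}

theorem mem_of_neg {σ : ℝ} (hσ : σ ≠ 0) (E : ℝ) {κ : ℝ} (hκ : κ < 0) : κ ∈ SG54 d σ E := by
  refine ⟨1 / 2, by norm_num, fun L₁ => ?_⟩
  have h := (tendsto_qG (d := d) hσ E hκ).eventually_lt_const
    (show (0 : ℝ≥0∞) < ENNReal.ofReal (1 / 2) from ENNReal.ofReal_pos.2 (by norm_num))
  obtain ⟨L, hL, hL1⟩ := (h.and (eventually_ge_atTop L₁)).exists
  refine ⟨L, hL1, ?_⟩
  by_contra hc
  rw [not_le] at hc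
  have h1 := one_le_pq (d := d) σ E κ L
  have h2 : pG d σ E κ L + qG d σ E κ L < ENNReal.ofReal (1 / 2) + ENNReal.ofReal (1 / 2) :=
    ENNReal.add_lt_add hc hL
  rw [← ENNReal.ofReal_add (by norm_num) (by norm_num)] at h2
  norm_num at h2
  exact absurd h1 (not_le.2 h2)

theorem bdd (zoo : ZooStmt) (hd : 1 ≤ d) {σ : ℝ} (hσ : σ ≠ 0) (E : ℝ) :
    BddAbove (SG54 d σ E) := by
  obtain ⟨C, hC, h⟩ := pG_large hd hσ E
  set κ₀ : ℝ := 4 * √C with hκ₀
  have hκ₀p : 0 < κ₀ := by positivity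
  refine ⟨κ₀, ?_⟩
  rintro κ ⟨δ, hδ, hS⟩
  by_contra hc
  rw [not_le] at hc
  obtain ⟨L₀, hL⟩ := zoo d σ E κ κ₀ δ (1 / 4) hd hσ hc hδ (by norm_num) hS
  have h1 := hL (max L₀ 1) (le_max_left _ _)
  have h2 := h κ₀ (max L₀ 1) hκ₀p (le_max_right _ _)
  have h3 : 4 * C / κ₀ ^ 2 = 1 / 4 := by
    rw [hκ₀, mul_pow, Real.sq_sqrt hC.le]
    field_simp
  rw [h3] at h2
  have h4 := (one_le_pq (d := d) σ E κ₀ (max L₀ 1)).trans (add_le_add h2 h1)
  rw [← ENNReal.ofReal_add (by norm_num) (by norm_num)] at h4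
  norm_num at h4

theorem lya (zoo : ZooStmt) : LyaStmt := by
  intro d σ E hd hσ
  have hb := bdd zoo hd hσ E
  have hne : (SG54 d σ E).Nonempty := ⟨-1, mem_of_neg hσ E (by norm_num)⟩
  refine ⟨sSup (SG54 d σ E), ?_, fun ε hε => ⟨?_, ?_⟩⟩
  · refine le_of_forall_lt fun κ hκ => ?_
    obtain ⟨κ', h1, h2⟩ := exists_between hκ
    exact h1.trans_le (le_csSup hb (mem_of_neg hσ E h2))
  · have hn : sSup (SG54 d σ E) + ε ∉ SG54 d σ E := fun h => by
      have := le_csSup hb h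
      linarith
    rw [ENNReal.tendsto_atTop_zero]
    intro e he
    rcases eq_or_ne e ⊤ with rfl | het
    · exact ⟨0, fun _ _ => le_top⟩
    by_contra hc
    push Not at hc
    apply hn
    refine ⟨e.toReal, ENNReal.toReal_pos he.ne' het, fun L₁ => ?_⟩
    obtain ⟨L, hL, hlt⟩ := hc L₁
    refine ⟨L, hL, ?_⟩
    rw [ENNReal.ofReal_toReal het]
    exact hlt.le
  · obtain ⟨κ, ⟨δ, hδ, hS⟩, hlt⟩ := exists_lt_of_lt_csSup hne
      (show sSup (SG54 d σ E) - ε < sSup (SG54 d σ E) by linarith)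
    rw [ENNReal.tendsto_atTop_zero]
    intro e he
    rcases eq_or_ne e ⊤ with rfl | het
    · exact ⟨0, fun _ _ => le_top⟩
    obtain ⟨L₀, hL⟩ := zoo d σ E κ (sSup (SG54 d σ E) - ε) δ e.toReal hd hσ hlt hδ
      (ENNReal.toReal_pos he.ne' het) hS
    refine ⟨L₀, fun L hLL => ?_⟩
    have := hL L hLL
    rwa [ENNReal.ofReal_toReal het] at this

end Pool.Agent.LE.H54
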