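import Pool.Agent.Helper54_LE.APG1

/-!
# A priori bounds for the resolvent of the lattice
-/

set_option autoImplicit false
set_option linter.unusedSectionVars false

open scoped InnerProductSpace ComplexConjugate Topology ENNReal
open MeasureTheory Filter

noncomputable section

namespace Pool.Agent.LE.H54

open Pool.Agent.Anderson Pool.Agent.Loc Pool.Agent.Mob Pool.Agent.Helper54.Bal Pool.Agent.LY

variable {d : ℕ}

theorem lapLin_apply (f : Site d → ℂ) (x : Site d) :
    lapLin d f x = ∑ t ∈ box x 1, (hop x t : ℂ) * f t :=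
  lap_eq_sum f x (box x 1) le_rfl

section det

variable {W : Site d → ℂ} {K : Kern (Site d)} (h : Ker (lapLin d) W K) {M : ℝ}
include h

theorem hop_sum_leI s {b : ℝ} (hb : 0 ≤ b) {y : Site d}
    (hK : ∀ t : Site d, hop s t ≠ 0 → ‖K t y‖ ≤ b) :
    ‖lapLin d (fun t => K t y) s‖ ≤ 2 * d * b := by
  rw [lapLin_apply]
  calc ‖∑ t ∈ box s 1, (hop s t : ℂ) * K t y‖ ≤ ∑ t ∈ box s 1, hop s t * b := by
        refine norm_sum_le_of_le _ fun t _ => ?_
        rw [norm_mul, Complex.norm_real, Real.norm_of_nonneg (hop_nonneg _ _)]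
        by_cases h0 : hop s t = 0
        · rw [h0]; simp
        · exact mul_le_mul_of_nonneg_left (hK t h0) (hop_nonneg _ _)
    _ = (∑ t ∈ box s 1, hop s t) * b := by rw [← Finset.sum_mul]
    _ ≤ _ := mul_le_mul_of_nonneg_right (sum_hop_le _ _) hb

/-- lower bound if the potential is `- i M` near `x` -/
theorem lowerI (hM : 32 * (d : ℝ) ^ 2 + 4 ≤ M) {x y : Site d}
    (hxy : x = y ∨ hop x y ≠ 0)
    (hW : ∀ t : Site d, sd x t ≤ 2 → (W t).im ≤ -M ∧ ‖W t‖ ≤ 2 * M) :
    1 / (16 * M ^ 2) ≤ ‖K x y‖ := by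
  have hM0 : 0 < M := by
    have : 0 ≤ 32 * (d : ℝ) ^ 2 := by positivity
    linarith
  have hM1 : 1 ≤ M := by
    have : 0 ≤ 32 * (d : ℝ) ^ 2 := by positivity
    linarith
  have hd0 : (0 : ℝ) ≤ d := Nat.cast_nonneg d
  have h2d : 2 * (d : ℝ) / M ≤ 1 / 2 := by
    rw [div_le_iff₀ hM0]
    nlinarith [sq_nonneg ((d : ℝ) - 1)]
  have hxy1 : sd x y ≤ 1 := by
    rcases hxy with rfl | h1
    · rw [sd_self]; norm_num
    · exact sd_of_hop h1
  have hnW : ∀ t : Site d, sd x t ≤ 2 → M ≤ ‖W t‖ := by
    intro t ht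
    have h1 := (hW t ht).1
    have h2 := Complex.abs_im_le_norm (W t)
    have h3 : M ≤ |(W t).im| := by
      rw [abs_of_nonpos (by linarith)]
      linarith
    linarith
  -- upper bounds
  have hyy : ‖K y y‖ ≤ 1 / M := by
    have h1 := h.col y {y}
    rw [Finset.sum_singleton] at h1
    have h2 := (hW y (hxy1.trans (by norm_num))).1
    have h3 : (K y y).im ≤ ‖K y y‖ := (le_abs_self _).trans (Complex.abs_im_le_norm _)
    have h4 : M * ‖K y y‖ ^ 2 ≤ ‖K y y‖ := by
      have : M * ‖K y y‖ ^ 2 ≤ -(W y).im * ‖K y y‖ ^ 2 :=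
        mul_le_mul_of_nonneg_right (by linarith) (by positivity)
      linarith
    have h5 : 0 < ‖K y y‖ := norm_pos_iff.2 (h.ne_zero y)
    rw [le_div_iff₀ hM0]
    have h6 : M * ‖K y y‖ * ‖K y y‖ ≤ 1 * ‖K y y‖ := by nlinarith
    have := le_of_mul_le_mul_right h6 h5
    linarith
  have hup : ∀ t : Site d, sd x t ≤ 2 → ‖K t y‖ ≤ 1 / M := by
    intro t ht
    have h1 := h.col y {t}
    rw [Finset.sum_singleton] at h1
    have h2 := (hW t ht).1
    have h3 : (K y y).im ≤ ‖K y y‖ := (le_abs_self _).trans (Complex.abs_im_le_norm _)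
    have h4 : M * ‖K t y‖ ^ 2 ≤ 1 / M := by
      have : M * ‖K t y‖ ^ 2 ≤ -(W t).im * ‖K t y‖ ^ 2 :=
        mul_le_mul_of_nonneg_right (by linarith) (by positivity)
      linarith
    have h5 : ‖K t y‖ ^ 2 ≤ (1 / M) ^ 2 := by
      rw [div_pow, one_pow, le_div_iff₀ (by positivity)]
      rw [le_div_iff₀ hM0] at h4
      nlinarith
    exact (pow_le_pow_iff_left₀ (norm_nonneg _) (by positivity) two_ne_zero).1 h5
  have hnb : ∀ s : Site d, sd x s ≤ 1 → ‖lapLin d (fun t => K t y) s‖ ≤ 2 * d / M := by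
    intro s hs
    have h1 := hop_sum_leI h s (b := 1 / M) (by positivity) (y := y) (fun t ht => by
      apply hup
      have h2 := sd_of_hop ht
      have h3 := sd_triangle x s t
      omega)
    calc _ ≤ 2 * d * (1 / M) := h1
      _ = _ := by ring
  -- the diagonal element
  have hdiag : 1 / (4 * M) ≤ ‖K y y‖ := by
    have h1 := h.eqn y y
    rw [if_pos rfl] at h1
    have h2 := hnb y hxy1
    have h3 : W y * K y y = 1 - lapLin d (fun t => K t y) y := by linear_combination h1
    have h4 : 1 / 2 ≤ ‖W y * K y y‖ := by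
      rw [h3]
      have h5 := norm_sub_norm_le (1 : ℂ) (lapLin d (fun t => K t y) y)
      rw [norm_one] at h5
      linarith
    rw [norm_mul] at h4
    have h6 := (hW y (hxy1.trans (by norm_num))).2
    have h7 : 1 / 2 ≤ 2 * M * ‖K y y‖ := h4.trans (mul_le_mul_of_nonneg_right h6 (norm_nonneg _))
    rw [div_le_iff₀ (by positivity)]
    nlinarith
  have hfin : 1 / (16 * M ^ 2) ≤ 1 / (4 * M) := by
    apply one_div_le_one_div_of_le (by positivity)
    nlinarith
  rcases hxy with rfl | hne
  · exact hfin.trans hdiag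
  · by_cases hxye : x = y
    · subst hxye
      exact hfin.trans hdiag
    have hoff : ∀ s : Site d, hop x s ≠ 0 → s ≠ y → ‖K s y‖ ≤ 2 * d / M ^ 2 := by
      intro s hs hsy
      have h1 := h.eqn s y
      rw [if_neg hsy] at h1
      have h2 := hnb s (sd_of_hop hs)
      have h3 : ‖W s * K s y‖ ≤ 2 * d / M := by
        have : W s * K s y = -lapLin d (fun t => K t y) s := by linear_combination h1
        rw [this, norm_neg]
        exact h2
      rw [norm_mul] at h3
      have h4 := hnW s ((sd_of_hop hs).trans (by norm_num))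
      have h5 : M * ‖K s y‖ ≤ 2 * d / M :=
        (mul_le_mul_of_nonneg_right h4 (norm_nonneg _)).trans h3
      rw [le_div_iff₀ (by positivity)]
      rw [le_div_iff₀ hM0] at h5
      nlinarith
    have h1 := h.eqn x y
    rw [if_neg hxye, lapLin_apply] at h1
    have hyb : y ∈ box x 1 := mem_box.2 hxy1
    rw [← Finset.add_sum_erase _ _ hyb] at h1
    set S : ℂ := ∑ t ∈ (box x 1).erase y, (hop x t : ℂ) * K t y with hS
    have hSle : ‖S‖ ≤ 2 * d * (2 * d / M ^ 2) := by
      calc ‖S‖ ≤ ∑ t ∈ (box x 1).erase y, hop x t * (2 * d / M ^ 2) := by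
            refine norm_sum_le_of_le _ fun t ht => ?_
            rw [norm_mul, Complex.norm_real, Real.norm_of_nonneg (hop_nonneg _ _)]
            by_cases h0 : hop x t = 0
            · rw [h0]; simp
            · exact mul_le_mul_of_nonneg_left (hoff t h0 (Finset.ne_of_mem_erase ht))
                (hop_nonneg _ _)
        _ ≤ ∑ t ∈ box x 1, hop x t * (2 * d / M ^ 2) := by
            apply Finset.sum_le_sum_of_subset_of_nonneg (Finset.erase_subset _ _)
            intro t _ _
            have := hop_nonneg x t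
            positivity
        _ = (∑ t ∈ box x 1, hop x t) * (2 * d / M ^ 2) := by rw [← Finset.sum_mul]
        _ ≤ _ := mul_le_mul_of_nonneg_right (sum_hop_le _ _) (by positivity)
    have h2 : W x * K x y = -((hop x y : ℂ) * K y y) - S := by linear_combination h1
    have h3 : 1 / (8 * M) ≤ ‖W x * K x y‖ := by
      rw [h2]
      have h4 := norm_sub_norm_le (-((hop x y : ℂ) * K y y)) S
      rw [norm_neg, norm_mul, Complex.norm_real, Real.norm_of_nonneg (hop_nonneg _ _)] at h4
      have h5 : 1 / (4 * M) ≤ hop x y * ‖K y y‖ := by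
        have := one_le_hop hne
        nlinarith [norm_nonneg (K y y)]
      have h6 : 2 * (d : ℝ) * (2 * d / M ^ 2) ≤ 1 / (8 * M) := by
        rw [mul_div_assoc', div_le_div_iff₀ (by positivity) (by positivity)]
        nlinarith
      have h7 : 1 / (4 * M) = 1 / (8 * M) + 1 / (8 * M) := by
        field_simp
        norm_num
      linarith
    rw [norm_mul] at h3
    have h8 := (hW x (by rw [sd_self]; norm_num)).2
    have h9 : 1 / (8 * M) ≤ 2 * M * ‖K x y‖ := h3.trans
      (mul_le_mul_of_nonneg_right h8 (norm_nonneg _))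
    rw [div_le_iff₀ (by positivity)] at h9 ⊢
    nlinarith

end det


section prob

variable {ν : Measure ℝ} [IsProbabilityMeasure ν] {ρ : ℝ}

/-- complex energy, all other potentials fixed -/
theorem low_margI (hν : BddDens ν ρ) {M : ℝ} (hM : 32 * (d : ℝ) ^ 2 + 4 ≤ M)
    {z : ℂ} (hz : 0 < z.im) (hzM : ‖z‖ ≤ M) {x y : Site d}
    (hxy : x = y ∨ hop x y ≠ 0) (V : Cfg d) :
    (∫⋯∫⁻_(box x 2), (fun V => (en (KI z V x y)) ^ (-(1 / 4) : ℝ)) ∂(fun _ => ν)) V ≤
      Clow d ν ρ M := by
  classical
  have hM1 : 1 ≤ M := by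
    have : 0 ≤ 32 * (d : ℝ) ^ 2 := by positivity
    linarith
  have h := (fam_KI (d := d) hz).neg_many hν hM1 (x := x) (y := y)
    (b := (ENNReal.ofReal (1 / (16 * M ^ 2))) ^ (-(1 / 4) : ℝ)) (B := box x 2) ?_ V
  · rw [Finset.image_id', card_box] at h
    exact h
  · intro l hl hlB V
    have hk := (fam_KI (d := d) hz).ker_KL (M := M) (by linarith) hl V
    have hlow := lowerI hk hM hxy (fun t ht => by
      have htl : t ∈ l := (hlB t).2 (mem_box.2 ht)
      simp only [if_pos htl]
      constructor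
      · simp only [Complex.sub_im, Complex.neg_im, Complex.mul_im, Complex.ofReal_re,
          Complex.I_im, Complex.ofReal_im, Complex.I_re]
        linarith
      · refine (norm_sub_le _ _).trans ?_
        rw [norm_neg, norm_mul, Complex.norm_I, Complex.norm_real,
          Real.norm_of_nonneg (by linarith)]
        linarith)
    rw [ENNReal.rpow_neg, ENNReal.rpow_neg]
    apply ENNReal.inv_le_inv.2
    apply ENNReal.rpow_le_rpow _ (by norm_num)
    exact ENNReal.ofReal_le_ofReal hlow

theorem lowI (hν : BddDens ν ρ) {M : ℝ} (hM : 32 * (d : ℝ) ^ 2 + 4 ≤ M)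
    {z : ℂ} (hz : 0 < z.im) (hzM : ‖z‖ ≤ M) {x y : Site d} (hxy : x = y ∨ hop x y ≠ 0) :
    ∫⁻ V, (en (KI z V x y)) ^ (-(1 / 4) : ℝ) ∂(PP d ν) ≤ Clow d ν ρ M :=
  PP_le_of_marg (box x 2) (((measurable_KI hz.ne' x y).norm.ennreal_ofReal).pow_const _)
    (low_margI hν hM hz hzM hxy)

/-- complex energy, all other potentials fixed -/
theorem one_margI (hν : BddDens ν ρ) {z : ℂ} (hz : 0 < z.im) (u x y : Site d)
    {τ : ℝ} (hτ : 0 < τ) (V : Site d → ℝ) :
    (∫⋯∫⁻_{u}, ({V | τ * ‖KI z V x y‖ < ‖KI z V x u‖ * ‖KI z V u y‖}.indicator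
      1) ∂(fun _ => ν)) V ≤ ENNReal.ofReal (8 * ρ / τ) := by
  have hρ := hν.1
  have hf := fam_KI (d := d) hz
  have hmS : MeasurableSet {V | τ * ‖KI z V x y‖ < ‖KI z V x u‖ * ‖KI z V u y‖} :=
    measurableSet_lt ((measurable_KI hz.ne' x y).norm.const_mul _)
      ((measurable_KI hz.ne' x u).norm.mul (measurable_KI hz.ne' u y).norm)
  rw [lmarginal_singleton]
  set V' := Function.update V u 0 with hV'
  have hk := hf.ker V'
  have hupd : ∀ v : ℝ, KI z (Function.update V u v) = upk u (v : ℂ) (KI z V') := by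
    intro v
    have e := hf.upd V' u v
    rw [hV', Function.update_idem, Function.update_self, Complex.ofReal_zero, sub_zero] at e
    exact e
  set K := KI z V' with hK
  set a : ℂ := -K x y / (K u u * K x y - K x u * K u y) with ha
  set a' : ℂ := -1 / K u u with ha'
  have hsub : {v : ℝ | τ * ‖upk u (v : ℂ) K x y‖ < ‖upk u (v : ℂ) K x u‖ * ‖upk u (v : ℂ) K u y‖} ⊆
      Set.Icc (a.re - 2 / τ) (a.re + 2 / τ) ∪ Set.Icc (a'.re - 2 / τ) (a'.re + 2 / τ) ∪
        {v : ℝ | upk u (v : ℂ) K x y = 0 ∧ upk u (v : ℂ) K x u ≠ 0 ∧ upk u (v : ℂ) K u y ≠ 0} := by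
    intro v hv
    simp only [Set.mem_ofPred_eq] at hv
    by_cases hN : upk u (v : ℂ) K x y = 0
    · right
      rw [hN, norm_zero, mul_zero] at hv
      refine ⟨hN, fun h0 => ?_, fun h0 => ?_⟩
      · rw [h0, norm_zero, zero_mul] at hv
        exact lt_irrefl _ hv
      · rw [h0, norm_zero, mul_zero] at hv
        exact lt_irrefl _ hv
    left
    have h1 := hk.ratio_le u x y v hN
    rw [← ha, ← ha'] at h1
    have hNp : 0 < ‖upk u (v : ℂ) K x y‖ := norm_pos_iff.2 hN
    have h2 : τ < ‖(v : ℂ) - a‖⁻¹ + ‖(v : ℂ) - a'‖⁻¹ := by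
      refine lt_of_lt_of_le ?_ h1
      rw [lt_div_iff₀ hNp]
      exact hv
    have key : ∀ b : ℂ, τ / 2 < ‖(v : ℂ) - b‖⁻¹ → v ∈ Set.Icc (b.re - 2 / τ) (b.re + 2 / τ) := by
      intro b hb
      have h3 : 0 < ‖(v : ℂ) - b‖ := by
        by_contra hcon
        have h4 : ‖(v : ℂ) - b‖ = 0 := le_antisymm (not_lt.1 hcon) (norm_nonneg _)
        rw [h4, inv_zero] at hb
        linarith
      have h5 : ‖(v : ℂ) - b‖ < 2 / τ := by
        rw [lt_div_iff₀ hτ]
        have h6 : τ / 2 * ‖(v : ℂ) - b‖ < 1 := by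
          rw [← one_div, lt_div_iff₀ h3] at hb
          exact hb
        nlinarith
      have h7 : |v - b.re| ≤ ‖(v : ℂ) - b‖ := by
        have := Complex.abs_re_le_norm ((v : ℂ) - b)
        simpa using this
      have h8 := abs_le.1 (h7.trans h5.le)
      constructor <;> linarith
    by_cases h9 : τ / 2 < ‖(v : ℂ) - a‖⁻¹
    · left; exact key a h9
    · right
      apply key a'
      push Not at h9
      linarith
  have hnull : ν {v : ℝ | upk u (v : ℂ) K x y = 0 ∧ upk u (v : ℂ) K x u ≠ 0 ∧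
      upk u (v : ℂ) K u y ≠ 0} = 0 := by
    have hsub2 : {v : ℝ | upk u (v : ℂ) K x y = 0 ∧ upk u (v : ℂ) K x u ≠ 0 ∧
        upk u (v : ℂ) K u y ≠ 0} ⊆ {a.re} := by
      rintro v ⟨h1, h2, h3⟩
      have hD := hk.den_ne (w := (v : ℂ)) (by simp) u
      rw [upk_eq hD] at h1 h2 h3
      set q := K u u * K x y - K x u * K u y with hq
      have h4 : K x y + v * q = 0 := by
        rcases div_eq_zero_iff.1 h1 with h | h
        · exact h
        · exact absurd h hD
      have h5 : K x u ≠ 0 := by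
        intro h0
        apply h2
        rw [h0]; simp
      have h6 : K u y ≠ 0 := by
        intro h0
        apply h3
        rw [h0]; simp
      have hq0 : q ≠ 0 := by
        intro h0
        rw [h0, mul_zero, add_zero] at h4
        rw [hq, h4, mul_zero, zero_sub, neg_eq_zero] at h0
        rcases mul_eq_zero.1 h0 with h | h
        · exact h5 h
        · exact h6 h
      have h7 : (v : ℂ) = a := by
        rw [ha]
        field_simp
        linear_combination h4
      rw [Set.mem_singleton_iff, ← h7, Complex.ofReal_re]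
    exact le_antisymm ((measure_mono hsub2).trans (null_singleton hν _).le) zero_le
  calc ∫⁻ v, ({V | τ * ‖KI z V x y‖ < ‖KI z V x u‖ * ‖KI z V u y‖}.indicator 1 :
        (Site d → ℝ) → ℝ≥0∞) (Function.update V u v) ∂ν
      = ν {v : ℝ | τ * ‖upk u (v : ℂ) K x y‖ < ‖upk u (v : ℂ) K x u‖ * ‖upk u (v : ℂ) K u y‖} := by
        have hms : MeasurableSet {v : ℝ | τ * ‖upk u (v : ℂ) K x y‖ <
            ‖upk u (v : ℂ) K x u‖ * ‖upk u (v : ℂ) K u y‖} := by
          have hmu : Measurable fun v : ℝ => Function.update V u v :=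
            measurable_update V
          have := hmu hmS
          refine (MeasurableSet.congr this ?_)
          ext v
          simp only [Set.mem_preimage, Set.mem_ofPred_eq, hupd]
        rw [← lintegral_indicator_one hms]
        refine lintegral_congr fun v => ?_
        by_cases hv : τ * ‖upk u (v : ℂ) K x y‖ < ‖upk u (v : ℂ) K x u‖ * ‖upk u (v : ℂ) K u y‖
        · rw [Set.indicator_of_mem (by simpa only [Set.mem_ofPred_eq, hupd] using hv),
            Set.indicator_of_mem (by simpa only [Set.mem_ofPred_eq] using hv)]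
          rfl
        · rw [Set.indicator_of_notMem (by simpa only [Set.mem_ofPred_eq, hupd] using hv),
            Set.indicator_of_notMem (by simpa only [Set.mem_ofPred_eq] using hv)]
    _ ≤ ν (Set.Icc (a.re - 2 / τ) (a.re + 2 / τ)) + ν (Set.Icc (a'.re - 2 / τ) (a'.re + 2 / τ)) +
        0 := by
        refine (measure_mono hsub).trans ((measure_union_le _ _).trans ?_)
        rw [hnull]
        gcongr
        exact measure_union_le _ _
    _ ≤ ENNReal.ofReal (ρ * (4 / τ)) + ENNReal.ofReal (ρ * (4 / τ)) + 0 := by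
        gcongr
        · refine (hν.2 _ _).trans (le_of_eq ?_)
          congr 2; ring
        · refine (hν.2 _ _).trans (le_of_eq ?_)
          congr 2; ring
    _ = _ := by
        rw [add_zero, ← ENNReal.ofReal_add (by positivity) (by positivity)]
        congr 1
        ring


theorem oneI (hν : BddDens ν ρ) {z : ℂ} (hz : 0 < z.im) (u x y : Site d) {τ : ℝ} (hτ : 0 < τ) :
    PP d ν {V | τ * ‖KI z V x y‖ < ‖KI z V x u‖ * ‖KI z V u y‖} ≤ ENNReal.ofReal (8 * ρ / τ) := by
  have hm : MeasurableSet {V : Cfg d | τ * ‖KI z V x y‖ < ‖KI z V x u‖ * ‖KI z V u y‖} :=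
    measurableSet_lt ((measurable_KI hz.ne' x y).norm.const_mul _)
      ((measurable_KI hz.ne' x u).norm.mul (measurable_KI hz.ne' u y).norm)
  rw [← lintegral_indicator_one hm]
  exact PP_le_of_marg {u} (measurable_one.indicator hm) (one_margI hν hz u x y hτ)

/-- the diagonal elements -/
theorem diagI (hν : BddDens ν ρ) {z : ℂ} (hz : 0 < z.im) (x : Site d) {τ : ℝ} (hτ : 0 < τ) :
    PP d ν {V | τ < ‖KI z V x x‖} ≤ ENNReal.ofReal (2 * ρ / τ) := by
  have hρ := hν.1
  have hm : MeasurableSet {V : Cfg d | τ < ‖KI z V x x‖} :=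
    measurableSet_lt measurable_const (measurable_KI hz.ne' x x).norm
  rw [← lintegral_indicator_one hm]
  refine PP_le_of_marg {x} (measurable_one.indicator hm) fun V => ?_
  have hf := fam_KI (d := d) hz
  rw [lmarginal_singleton]
  set V' := Function.update V x 0 with hV'
  have hk := hf.ker V'
  have hupd : ∀ v : ℝ, KI z (Function.update V x v) = upk x (v : ℂ) (KI z V') := by
    intro v
    have e := hf.upd V' x v
    rw [hV', Function.update_idem, Function.update_self, Complex.ofReal_zero, sub_zero] at e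
    exact e
  set K := KI z V' with hK
  set a : ℂ := -1 / K x x with ha
  have hne := hk.ne_zero x
  have hsub : {v : ℝ | τ < ‖upk x (v : ℂ) K x x‖} ⊆ Set.Icc (a.re - 1 / τ) (a.re + 1 / τ) := by
    intro v hv
    rw [Set.mem_ofPred_eq] at hv
    have hD := hk.den_ne (w := (v : ℂ)) (by simp) x
    rw [upk_eq hD] at hv
    have e1 : (K x x + v * (K x x * K x x - K x x * K x x)) / (1 + v * K x x) =
        ((v : ℂ) - a)⁻¹ := by
      have e2 : (v : ℂ) - a = (1 + v * K x x) / K x x := by
        rw [ha]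
        field_simp
        ring
      rw [e2, inv_div]
      congr 1
      ring
    rw [e1, norm_inv] at hv
    have h3 : 0 < ‖(v : ℂ) - a‖ := by
      by_contra hcon
      have h4 : ‖(v : ℂ) - a‖ = 0 := le_antisymm (not_lt.1 hcon) (norm_nonneg _)
      rw [h4, inv_zero] at hv
      linarith
    have h5 : ‖(v : ℂ) - a‖ < 1 / τ := by
      rw [lt_div_iff₀ hτ]
      rw [← one_div, lt_div_iff₀ h3] at hv
      linarith
    have h7 : |v - a.re| ≤ ‖(v : ℂ) - a‖ := by
      have := Complex.abs_re_le_norm ((v : ℂ) - a)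
      simpa using this
    have h8 := abs_le.1 (h7.trans h5.le)
    constructor <;> linarith
  have hms : MeasurableSet {v : ℝ | τ < ‖upk x (v : ℂ) K x x‖} := by
    have hmu : Measurable fun v : ℝ => Function.update V x v := measurable_update V
    have := hmu hm
    refine (MeasurableSet.congr this ?_)
    ext v
    simp only [Set.mem_preimage, Set.mem_ofPred_eq, hupd]
  calc ∫⁻ v, ({V : Cfg d | τ < ‖KI z V x x‖}.indicator 1 : Cfg d → ℝ≥0∞)
        (Function.update V x v) ∂ν
      = ν {v : ℝ | τ < ‖upk x (v : ℂ) K x x‖} := by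
        rw [← lintegral_indicator_one hms]
        refine lintegral_congr fun v => ?_
        by_cases hv : τ < ‖upk x (v : ℂ) K x x‖
        · rw [Set.indicator_of_mem (by simpa only [Set.mem_ofPred_eq, hupd] using hv),
            Set.indicator_of_mem (by simpa only [Set.mem_ofPred_eq] using hv)]
          rfl
        · rw [Set.indicator_of_notMem (by simpa only [Set.mem_ofPred_eq, hupd] using hv),
            Set.indicator_of_notMem (by simpa only [Set.mem_ofPred_eq] using hv)]
    _ ≤ ν (Set.Icc (a.re - 1 / τ) (a.re + 1 / τ)) := measure_mono hsub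
    _ ≤ ENNReal.ofReal (ρ * ((a.re + 1 / τ) - (a.re - 1 / τ))) := hν.2 _ _
    _ = _ := by
        congr 1
        field_simp
        ring

theorem upI (hν : BddDens ν ρ) {z : ℂ} (hz : 0 < z.im) (x y : Site d) {τ : ℝ} (hτ : 0 < τ) :
    PP d ν {V | τ < ‖KI z V x y‖} ≤ ENNReal.ofReal (10 * ρ / τ) := by
  have hρ := hν.1
  have hsub : {V : Cfg d | τ < ‖KI z V x y‖} ⊆
      {V | τ * ‖KI z V x x‖ < ‖KI z V x y‖ * ‖KI z V y x‖} ∪ {V | τ < ‖KI z V x x‖} := by
    intro V hV
    rw [Set.mem_ofPred_eq] at hV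
    by_cases h : τ < ‖KI z V x x‖
    · exact Or.inr h
    · left
      rw [Set.mem_ofPred_eq, (ker_KI hz V).symm y x]
      push Not at h
      nlinarith
  refine (measure_mono hsub).trans ((measure_union_le _ _).trans ?_)
  calc _ ≤ ENNReal.ofReal (8 * ρ / τ) + ENNReal.ofReal (2 * ρ / τ) :=
        add_le_add (oneI hν hz y x x hτ) (diagI hν hz x hτ)
    _ = _ := by
        rw [← ENNReal.ofReal_add (by positivity) (by positivity)]
        congr 1
        ring

end prob

end Pool.Agent.LE.H54
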