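import Pool.Agent.Helper54_LE.APG3

/-!
# The resolvent of the lattice: the a priori properties (APG)
-/

set_option autoImplicit false
set_option linter.unusedSectionVars false

open scoped InnerProductSpace ComplexConjugate Topology ENNReal
open MeasureTheory Filter ProbabilityTheory

noncomputable section

namespace Pool.Agent.LE.H54

open Pool.Agent.Anderson Pool.Agent.Loc Pool.Agent.Mob Pool.Agent.Helper54.Bal Pool.Agent.LY

variable {d : ℕ}

theorem gn_eq {η : ℝ} (hη : 0 < η) (E : ℝ) (V : Cfg d) (x y : Site d) :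
    gn V η E x y = ‖KI (zz η E) V x y‖ := by
  have hz : 0 < (zz η E).im := by rw [zz_im]; exact hη
  rw [(ker_KI hz V).symm x y]
  rfl

theorem measurable_gn {η : ℝ} (hη : 0 < η) (E : ℝ) (x y : Site d) :
    Measurable fun V : Cfg d => gn V η E x y := by
  have hz : 0 < (zz η E).im := by rw [zz_im]; exact hη
  simp only [gn_eq hη]
  exact (measurable_KI hz.ne' x y).norm

theorem one_gn {σ : ℝ} (hσ : σ ≠ 0) {η : ℝ} (hη : 0 < η) (E : ℝ) (x u y : Site d) {τ : ℝ}
    (hτ : 0 < τ) : PP d (gl σ) {V | τ * gn V η E x y < gn V η E x u * gn V η E u y} ≤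
      ENNReal.ofReal (8 * (1 / |σ|) / τ) := by
  have hz : 0 < (zz η E).im := by rw [zz_im]; exact hη
  simp only [gn_eq hη]
  exact oneI (bddDens_gl hσ) hz u x y hτ

theorem up_gn {σ : ℝ} (hσ : σ ≠ 0) {η : ℝ} (hη : 0 < η) (E : ℝ) (x y : Site d) {τ : ℝ}
    (hτ : 0 < τ) : PP d (gl σ) {V | τ < gn V η E x y} ≤
      ENNReal.ofReal (10 * (1 / |σ|) / τ) := by
  have hz : 0 < (zz η E).im := by rw [zz_im]; exact hη
  simp only [gn_eq hη]
  exact upI (bddDens_gl hσ) hz x y hτ

theorem near_gn {σ : ℝ} (hσ : σ ≠ 0) (E : ℝ) {p : ℝ} (hp : 0 < p) : ∃ C : ℝ, 0 ≤ C ∧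
    ∀ η : ℝ, 0 < η → η ≤ 1 → ∀ x y : Site d, (x = y ∨ hop x y ≠ 0) →
    Nn (PP d (gl σ)) p (fun V => Dp (gn V η E x y)) ≤ ENNReal.ofReal C := by
  set M : ℝ := 32 * (d : ℝ) ^ 2 + 4 + |E| with hM
  have hM0 : 0 < M := by positivity
  set C0 : ℝ := (Clow d (gl σ) (1 / |σ|) M).toReal with hC0
  have hC00 : 0 ≤ C0 := ENNReal.toReal_nonneg
  refine ⟨((4 * p) ^ p * C0) ^ (1 / p), by positivity, ?_⟩
  intro η hη hη1 x y hxy
  have hz : 0 < (zz η E).im := by rw [zz_im]; exact hη
  have hzM : ‖zz η E‖ ≤ M := by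
    unfold zz
    refine (norm_add_le _ _).trans ?_
    rw [norm_mul, Complex.norm_I, mul_one, Complex.norm_real, Complex.norm_real,
      Real.norm_eq_abs, Real.norm_of_nonneg hη.le, hM]
    have : 0 ≤ 32 * (d : ℝ) ^ 2 := by positivity
    linarith
  rw [← ENNReal.ofReal_rpow_of_nonneg (by positivity) (by positivity)]
  apply Nn_le hp
  calc ∫⁻ V, (Dp (gn V η E x y)) ^ p ∂(PP d (gl σ))
      ≤ ∫⁻ V, ENNReal.ofReal ((4 * p) ^ p) * (en (KI (zz η E) V x y)) ^ (-(1 / 4) : ℝ)
          ∂(PP d (gl σ)) := by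
        refine lintegral_mono fun V => (Dp_rpow_le hp _).trans (le_of_eq ?_)
        rw [gn_eq hη, abs_of_nonneg (norm_nonneg _)]
    _ = ENNReal.ofReal ((4 * p) ^ p) * ∫⁻ V, (en (KI (zz η E) V x y)) ^ (-(1 / 4) : ℝ)
          ∂(PP d (gl σ)) := lintegral_const_mul' _ _ ENNReal.ofReal_ne_top
    _ ≤ ENNReal.ofReal ((4 * p) ^ p) * ENNReal.ofReal C0 := by
        gcongr
        rw [hC0, ENNReal.ofReal_toReal (Clow_gl (d := d) σ (1 / |σ|) hM0.ne')]
        exact lowI (bddDens_gl hσ) (by rw [hM]; have := abs_nonneg E; linarith) hz hzM hxy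
    _ = _ := by rw [← ENNReal.ofReal_mul (by positivity)]

theorem ratio_gn {σ : ℝ} (hσ : σ ≠ 0) (E : ℝ) {p : ℝ} (hp : 0 < p) : ∃ C : ℝ, 0 ≤ C ∧
    ∀ η : ℝ, 0 < η → ∀ x u y : Site d,
    Nn (PP d (gl σ)) p (fun V => Rp (gn V η E x u) (gn V η E u y) (gn V η E x y)) ≤
      ENNReal.ofReal C := by
  set ρ : ℝ := 1 / |σ| with hρdef
  have hν := bddDens_gl hσ
  have hρ : 0 < ρ := hν.1
  refine ⟨((2 * p) ^ p * (1 + 8 * ρ)) ^ (1 / p), by positivity, ?_⟩
  intro η hη x u y
  rw [← ENNReal.ofReal_rpow_of_nonneg (by positivity) (by positivity)]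
  apply Nn_le hp
  have h0' : ∀ (V : Cfg d) x y, 0 ≤ gn V η E x y := fun V x y => norm_nonneg _
  have hone : ∀ τ : ℝ, 0 < τ → PP d (gl σ) {V | τ * gn V η E x y < gn V η E x u *
      gn V η E u y} ≤ ENNReal.ofReal (8 * ρ / τ) := fun τ hτ => one_gn hσ hη E x u y hτ
  have hnull : PP d (gl σ) {V | gn V η E x y = 0 ∧ gn V η E x u * gn V η E u y ≠ 0} = 0 := by
    have h1 : ∀ k : ℕ, PP d (gl σ) {V | gn V η E x y = 0 ∧ gn V η E x u * gn V η E u y ≠ 0} ≤
        ENNReal.ofReal (8 * ρ / ((k : ℝ) + 1)) := by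
      intro k
      refine (measure_mono ?_).trans (hone ((k : ℝ) + 1) (by positivity))
      rintro V ⟨h2, h3⟩
      rw [Set.mem_ofPred_eq, h2, mul_zero]
      exact lt_of_le_of_ne (mul_nonneg (h0' _ _ _) (h0' _ _ _)) (Ne.symm h3)
    have h2 : Tendsto (fun k : ℕ => ENNReal.ofReal (8 * ρ / ((k : ℝ) + 1))) atTop
        (𝓝 (ENNReal.ofReal 0)) := by
      apply ENNReal.tendsto_ofReal
      have := (tendsto_one_div_add_atTop_nhds_zero_nat (𝕜 := ℝ)).const_mul (8 * ρ)
      rw [mul_zero] at this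
      refine this.congr fun k => ?_
      ring
    rw [ENNReal.ofReal_zero] at h2
    exact le_antisymm (ge_of_tendsto' h2 h1) zero_le
  set f : Cfg d → ℝ := fun V => |gn V η E x u| * |gn V η E u y| / |gn V η E x y| with hf
  have hfm : Measurable f := by
    have h1 := measurable_gn hη E x u
    have h2 := measurable_gn hη E u y
    have h3 := measurable_gn hη E x y
    exact ((h1.abs.mul h2.abs)).div h3.abs
  have hweak : ∀ τ : ℝ, 0 < τ → PP d (gl σ) {V | τ < |f V|} ≤ ENNReal.ofReal (8 * ρ / τ) := by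
    intro τ hτ
    refine (measure_mono ?_).trans (hone τ hτ)
    intro V hV
    have h0 : 0 ≤ f V := by rw [hf]; positivity
    rw [Set.mem_ofPred_eq, abs_of_nonneg h0] at hV
    rw [Set.mem_ofPred_eq]
    have hne : |gn V η E x y| ≠ 0 := by
      intro h1
      rw [hf] at hV
      simp only [h1, div_zero] at hV
      linarith
    have hpos : 0 < |gn V η E x y| := lt_of_le_of_ne (abs_nonneg _) (Ne.symm hne)
    have h4 := (lt_div_iff₀ hpos).1 hV
    rw [abs_of_nonneg (h0' V x y), abs_of_nonneg (h0' V x u), abs_of_nonneg (h0' V u y)] at h4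
    exact h4
  have hint := weak_sqrt hfm (B := Set.univ) (c := 8 * ρ) (by positivity) hweak (a := 1) one_pos
  rw [Measure.restrict_univ, measure_univ, mul_one, div_one,
    ← ENNReal.ofReal_add (by norm_num) (by positivity)] at hint
  have hae : ∀ᵐ V ∂(PP d (gl σ)), (Rp (gn V η E x u) (gn V η E u y) (gn V η E x y)) ^ p ≤
      ENNReal.ofReal ((2 * p) ^ p) * ENNReal.ofReal (√|f V|) := by
    have h1 : ∀ᵐ V ∂(PP d (gl σ)), ¬ (gn V η E x y = 0 ∧ gn V η E x u * gn V η E u y ≠ 0) := by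
      rw [ae_iff]
      simpa only [not_not] using hnull
    filter_upwards [h1] with V hV
    have h0 : 0 ≤ f V := by rw [hf]; positivity
    rw [abs_of_nonneg h0]
    by_cases hc : gn V η E x y = 0
    · have h2 : gn V η E x u * gn V η E u y = 0 := by
        by_contra h3
        exact hV ⟨hc, h3⟩
      unfold Rp
      rw [if_pos hc, if_pos h2, ENNReal.zero_rpow_of_pos hp]
      exact zero_le
    · exact Rp_rpow_le hp hc
  calc _ ≤ ∫⁻ V, ENNReal.ofReal ((2 * p) ^ p) * ENNReal.ofReal (√|f V|) ∂(PP d (gl σ)) :=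
        lintegral_mono_ae hae
    _ = ENNReal.ofReal ((2 * p) ^ p) * ∫⁻ V, ENNReal.ofReal (√|f V|) ∂(PP d (gl σ)) :=
        lintegral_const_mul' _ _ ENNReal.ofReal_ne_top
    _ ≤ ENNReal.ofReal ((2 * p) ^ p) * ENNReal.ofReal (1 + 8 * ρ) := by gcongr
    _ = _ := by rw [← ENNReal.ofReal_mul (by positivity)]

theorem apg : ApgStmt := by
  intro d σ E hd hσ
  have hd1 : (1 : ℝ) ≤ d := by exact_mod_cast hd
  have hd4 : (0 : ℝ) < ((4 * d : ℕ) : ℝ) := by
    push_cast; linarith
  obtain ⟨C1, hC1, h1⟩ := near_gn (d := d) hσ E (p := 2) (by norm_num)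
  obtain ⟨C2, hC2, h2⟩ := ratio_gn (d := d) hσ E (p := 2) (by norm_num)
  obtain ⟨D1, hD1, k1⟩ := near_gn (d := d) hσ E hd4
  obtain ⟨D2, hD2, k2⟩ := ratio_gn (d := d) hσ E hd4
  set ρ : ℝ := 1 / |σ| with hρdef
  have hρ : 0 < ρ := (bddDens_gl hσ).1
  set C3 : ℝ := 16 * (1 + 10 * ρ) with hC3def
  have hC3 : 0 ≤ C3 := by positivity
  set A : ℝ := (d * (C1 + C2)) ^ 2 with hA
  have hA0 : 0 ≤ A := sq_nonneg _
  set B : ℝ := (12 * d * (D1 + D2) + 81 * D2) ^ (4 * d) with hB
  have hB0 : 0 ≤ B := by positivity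
  refine ⟨A + C3 + C2 ^ 2 + B + 18 * ρ + 1, by positivity, ?_⟩
  intro η hη hη1
  set C : ℝ := A + C3 + C2 ^ 2 + B + 18 * ρ + 1 with hC
  have c2 : 0 ≤ C2 ^ 2 := sq_nonneg _
  have hz : 0 < (zz η E).im := by rw [zz_im]; exact hη
  have h0 : ∀ (V : Cfg d) x y, 0 ≤ gn V η E x y := fun V x y => norm_nonneg _
  have mg : ∀ x y, Measurable fun V : Cfg d => gn V η E x y := fun x y => measurable_gn hη E x y
  have mD : ∀ x y, Measurable fun V : Cfg d => Dp (gn V η E x y) := fun x y =>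
    measurable_Dp.comp (mg x y)
  have mU : ∀ x y, Measurable fun V : Cfg d => Up (gn V η E x y) := fun x y =>
    measurable_Up.comp (mg x y)
  have mL : ∀ x y, Measurable fun V : Cfg d => Real.log (gn V η E x y) := fun x y =>
    Real.measurable_log.comp (mg x y)
  have hDp : ∀ x y, ∫⁻ V, (Dp (gn V η E x y)) ^ (2 : ℝ) ∂(PP d (gl σ)) ≤
      ENNReal.ofReal (A * ((sd x y : ℝ) + 1) ^ 2) := by
    intro x y
    rw [← Nn_rpow (by norm_num)]
    have hp := pathA (μ := PP d (gl σ)) (h := fun V x y => gn V η E x y) (p := 2) (by norm_num)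
      hC1 hC2 mg (fun x y hxy => h1 η hη hη1 x y hxy) (fun x u y => h2 η hη x u y) x (l1 x y) y
      rfl
    refine (ENNReal.rpow_le_rpow hp (by norm_num)).trans ?_
    rw [ENNReal.ofReal_rpow_of_nonneg (by positivity) (by norm_num), Real.rpow_two]
    apply ENNReal.ofReal_le_ofReal
    have h3 : (l1 x y : ℝ) ≤ d * sd x y := by exact_mod_cast l1_le x y le_rfl
    have h4 : 0 ≤ C1 + C2 := by linarith
    have h5 : ((l1 x y : ℝ) + 1) ≤ d * ((sd x y : ℝ) + 1) := by linarith
    rw [hA, ← mul_pow]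
    apply pow_le_pow_left₀ (by positivity)
    calc ((l1 x y : ℝ) + 1) * (C1 + C2) ≤ d * ((sd x y : ℝ) + 1) * (C1 + C2) :=
          mul_le_mul_of_nonneg_right h5 h4
      _ = _ := by ring
  have hUp : ∀ x y, ∫⁻ V, (Up (gn V η E x y)) ^ (2 : ℝ) ∂(PP d (gl σ)) ≤ ENNReal.ofReal C3 := by
    intro x y
    have hint := weak_sqrt (mg x y) (B := Set.univ) (m := PP d (gl σ)) (c := 10 * ρ)
      (by positivity) (fun τ hτ => by
        simpa only [abs_of_nonneg (h0 _ x y)] using up_gn hσ hη E x y hτ) (a := 1) one_pos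
    rw [Measure.restrict_univ, measure_univ, mul_one, div_one,
      ← ENNReal.ofReal_add (by norm_num) (by positivity)] at hint
    calc ∫⁻ V, (Up (gn V η E x y)) ^ (2 : ℝ) ∂(PP d (gl σ))
        ≤ ∫⁻ V, ENNReal.ofReal 16 * ENNReal.ofReal (√|gn V η E x y|) ∂(PP d (gl σ)) :=
          lintegral_mono fun V => Up_sq_le _
      _ = ENNReal.ofReal 16 * ∫⁻ V, ENNReal.ofReal (√|gn V η E x y|) ∂(PP d (gl σ)) :=
          lintegral_const_mul' _ _ ENNReal.ofReal_ne_top
      _ ≤ ENNReal.ofReal 16 * ENNReal.ofReal (1 + 10 * ρ) := by gcongr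
      _ = _ := by rw [← ENNReal.ofReal_mul (by norm_num)]
  have hRp : ∀ x u y, ∫⁻ V, (Rp (gn V η E x u) (gn V η E u y) (gn V η E x y)) ^ (2 : ℝ)
      ∂(PP d (gl σ)) ≤ ENNReal.ofReal (C2 ^ 2) := by
    intro x u y
    rw [← Nn_rpow (by norm_num)]
    refine (ENNReal.rpow_le_rpow (h2 η hη x u y) (by norm_num)).trans ?_
    rw [ENNReal.ofReal_rpow_of_nonneg (by positivity) (by norm_num), Real.rpow_two]
  have hne : ∀ x y, ∀ᵐ V ∂(PP d (gl σ)), gn V η E x y ≠ 0 := by
    intro x y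
    have h := ae_lt_top ((mD x y).pow_const 2)
      (ne_top_of_le_ne_top ENNReal.ofReal_ne_top (hDp x y))
    filter_upwards [h] with V hV hV0
    rw [hV0] at hV
    simp [Dp] at hV
  have hsqle : ∀ x y, ∫⁻ V, ENNReal.ofReal (Real.log (gn V η E x y) ^ 2) ∂(PP d (gl σ)) ≤
      ENNReal.ofReal (A * ((sd x y : ℝ) + 1) ^ 2 + C3) := by
    intro x y
    calc ∫⁻ V, ENNReal.ofReal (Real.log (gn V η E x y) ^ 2) ∂(PP d (gl σ))
        ≤ ∫⁻ V, ((Dp (gn V η E x y)) ^ (2 : ℝ) + (Up (gn V η E x y)) ^ (2 : ℝ))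
            ∂(PP d (gl σ)) := by
          refine lintegral_mono fun V => ?_
          have := ofReal_sq_le (gn V η E x y)
          rwa [neg_sq, abs_of_nonneg (h0 V x y)] at this
      _ = ∫⁻ V, (Dp (gn V η E x y)) ^ (2 : ℝ) ∂(PP d (gl σ)) +
            ∫⁻ V, (Up (gn V η E x y)) ^ (2 : ℝ) ∂(PP d (gl σ)) :=
            lintegral_add_left ((mD x y).pow_const _) _
      _ ≤ ENNReal.ofReal (A * ((sd x y : ℝ) + 1) ^ 2) + ENNReal.ofReal C3 :=
            add_le_add (hDp x y) (hUp x y)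
      _ = _ := by rw [← ENNReal.ofReal_add (by positivity) hC3]
  refine
    { meas := mg
      nonneg := h0
      pos := ?_
      symm := ?_
      stat := ?_
      up := ?_
      one := ?_
      sq := ?_
      neg := ?_
      tri := ?_
      chn := ?_ }
  · rw [ae_all_iff]
    intro x
    rw [ae_all_iff]
    intro y
    filter_upwards [hne x y] with V hV
    exact lt_of_le_of_ne (h0 V x y) (Ne.symm hV)
  · refine Filter.Eventually.of_forall fun V x y => ?_
    rw [gn_eq hη, gn_eq hη, (ker_KI hz V).symm x y]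
  · intro a
    refine Filter.Eventually.of_forall fun V x y => ?_
    unfold gn
    have hs : shift a (del (x + a) : L2 d) = del x := by
      ext w
      rw [shift_apply, del_apply, del_apply]
      by_cases h : w = x
      · subst h; simp
      · rw [if_neg h, if_neg]
        intro h'
        exact h (add_right_cancel h')
    have hG : G (tau a V) (zz η E) (shift a (del (x + a) : L2 d))
        = shift a (G V (zz η E) (del (x + a))) :=
      Pool.Agent.QE.Tr.G_cov hz.ne' a V (del (x + a) : L2 d)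
    have hG2 : (G (tau a V) (zz η E) (shift a (del (x + a) : L2 d)) : Site d → ℂ) y
        = (G V (zz η E) (del (x + a) : L2 d) : Site d → ℂ) (y + a) := by
      have h3 := congrArg (fun f : L2 d => (f : Site d → ℂ) y) hG
      simpa [shift_apply] using h3
    rw [hs] at hG2
    rw [hG2]
  · intro x y t ht
    rcases le_or_gt 1 t with ht1 | ht1
    · refine (up_gn hσ hη E x y ht).trans (ENNReal.ofReal_le_ofReal ?_)
      have h3 : √t ≤ t := by
        rw [Real.sqrt_le_left (by linarith)]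
        nlinarith
      have h4 : 0 < √t := Real.sqrt_pos.2 ht
      calc 10 * (1 / |σ|) / t ≤ 10 * (1 / |σ|) / √t := by gcongr
        _ ≤ C / √t := by
            gcongr
            rw [hC, ← hρdef]
            linarith
    · refine prob_le_one.trans ?_
      rw [← ENNReal.ofReal_one]
      apply ENNReal.ofReal_le_ofReal
      have h4 : 0 < √t := Real.sqrt_pos.2 ht
      rw [le_div_iff₀ h4, one_mul]
      have h5 : √t ≤ 1 := by
        rw [Real.sqrt_le_one]
        exact ht1.le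
      rw [hC]
      linarith
  · intro x u y t ht
    refine (one_gn hσ hη E x u y ht).trans (ENNReal.ofReal_le_ofReal ?_)
    gcongr
    rw [hC, ← hρdef]
    linarith
  · intro x y
    have h := int_le (P := PP d (gl σ)) ((mL x y).pow_const 2) (fun V => sq_nonneg _)
      (c := A * ((sd x y : ℝ) + 1) ^ 2 + C3) (by positivity) (hsqle x y)
    refine ⟨h.1, h.2.trans ?_⟩
    have h3 : (1 : ℝ) ≤ ((sd x y : ℝ) + 1) ^ 2 := by
      have : (0 : ℝ) ≤ sd x y := Nat.cast_nonneg _
      nlinarith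
    have h4 : A * ((sd x y : ℝ) + 1) ^ 2 + C3 ≤ (A + C3) * ((sd x y : ℝ) + 1) ^ 2 := by
      nlinarith
    refine h4.trans (mul_le_mul_of_nonneg_right ?_ (by positivity))
    rw [hC]
    linarith
  · intro x y
    have h := int_le (P := PP d (gl σ)) ((measurable_const.max (mL x y)).pow_const 2)
      (f := fun V => (max 0 (Real.log (gn V η E x y))) ^ 2) (fun V => sq_nonneg _)
      (c := C3) hC3 ?_
    · refine h.2.trans ?_
      rw [hC]
      linarith
    · refine le_trans (lintegral_mono fun V => ?_) (hUp x y)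
      unfold Up
      rw [abs_of_nonneg (h0 V x y)]
      rcases le_total 0 (Real.log (gn V η E x y)) with h3 | h3
      · rw [max_eq_right h3, ENNReal.ofReal_rpow_of_nonneg h3 (by norm_num), Real.rpow_two]
      · rw [max_eq_left h3]
        simp
  · intro x u y
    have h := int_le (P := PP d (gl σ))
      ((measurable_const.max (((mL x u).add (mL u y)).sub (mL x y))).pow_const 2)
      (f := fun V => (max 0 (Real.log (gn V η E x u) + Real.log (gn V η E u y) -
        Real.log (gn V η E x y))) ^ 2)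
      (fun V => sq_nonneg _) (c := C2 ^ 2) (sq_nonneg _) ?_
    · refine h.2.trans ?_
      rw [hC]
      linarith
    · refine le_trans (lintegral_mono_ae ?_) (hRp x u y)
      filter_upwards [hne x u, hne u y, hne x y] with V ha hb hc
      unfold Rp
      rw [if_neg hc, abs_of_nonneg (h0 V x u), abs_of_nonneg (h0 V u y),
        abs_of_nonneg (h0 V x y), ← Real.log_mul ha hb, ← Real.log_div (mul_ne_zero ha hb) hc]
      set L := Real.log (gn V η E x u * gn V η E u y / gn V η E x y)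
      rcases le_total 0 L with h3 | h3
      · rw [max_eq_right h3, ENNReal.ofReal_rpow_of_nonneg h3 (by norm_num), Real.rpow_two]
      · rw [max_eq_left h3]
        simp
  · intro x r t hr ht
    have h := chnA (μ := PP d (gl σ)) (h := fun V x y => gn V η E x y) hd hD1 hD2 mg
      (fun x y hxy => k1 η hη hη1 x y hxy) (fun x u y => k2 η hη x u y) r hr x ht
    simp only [abs_of_nonneg (h0 _ _ _)] at h
    refine h.trans (ENNReal.ofReal_le_ofReal ?_)
    rw [← hB]
    refine mul_le_mul_of_nonneg_right ?_ (by positivity)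
    rw [hC]
    linarith

end Pool.Agent.LE.H54
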