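import Pool.Agent.Helper54_LY.Low
import Pool.Agent.Helper54_QE.Rank
import Pool.Agent.Helper54_QE.Alg
import Pool.Agent.Helper68_QE.Resample

/-!
# The kernel of the lattice at a complex energy
-/

set_option autoImplicit false
set_option linter.unusedSectionVars false

open scoped InnerProductSpace ComplexConjugate Topology ENNReal
open MeasureTheory Filter

noncomputable section

namespace Pool.Agent.LE.H54

open Pool.Agent.Anderson Pool.Agent.Loc Pool.Agent.Helper54.Bal Pool.Agent.LY

variable {d : ℕ}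

/-! ### averaging over finitely many sites -/

section marg

variable {ν : Measure ℝ} [IsProbabilityMeasure ν]

theorem lint_marg (S : Finset (Site d)) {f : Cfg d → ℝ≥0∞} (hf : Measurable f) :
    ∫⁻ V, f V ∂(PP d ν) = ∫⁻ V, (∫⋯∫⁻_S, f ∂(fun _ => ν)) V ∂(PP d ν) := by
  classical
  induction S using Finset.induction_on with
  | empty => rw [lmarginal_empty]
  | insert u S hu ih =>
    rw [ih]
    have hg : Measurable fun V => (∫⋯∫⁻_S, f ∂(fun _ => ν)) V := hf.lmarginal _
    have hmp : MeasurePreserving (fun p : Cfg d × ℝ => Function.update p.1 u p.2)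
      ((PP d ν).prod ν) (PP d ν) := Pool.Agent.QE.mpres (d := d) ν u
    calc ∫⁻ V, (∫⋯∫⁻_S, f ∂(fun _ => ν)) V ∂(PP d ν)
        = ∫⁻ p, (∫⋯∫⁻_S, f ∂(fun _ => ν)) (Function.update p.1 u p.2) ∂((PP d ν).prod ν) := by
          rw [← lintegral_map hg hmp.measurable, hmp.map_eq]
      _ = ∫⁻ V, ∫⁻ v, (∫⋯∫⁻_S, f ∂(fun _ => ν)) (Function.update V u v) ∂ν ∂(PP d ν) :=
          lintegral_prod _ (hg.comp hmp.measurable).aemeasurable
      _ = _ := by
          refine lintegral_congr fun V => ?_
          rw [lmarginal_insert _ hf hu]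

theorem PP_le_of_marg (S : Finset (Site d)) {f : Cfg d → ℝ≥0∞} (hf : Measurable f) {c : ℝ≥0∞}
    (h : ∀ V, (∫⋯∫⁻_S, f ∂(fun _ => ν)) V ≤ c) : ∫⁻ V, f V ∂(PP d ν) ≤ c := by
  rw [lint_marg S hf]
  calc ∫⁻ V, (∫⋯∫⁻_S, f ∂(fun _ => ν)) V ∂(PP d ν) ≤ ∫⁻ _V, c ∂(PP d ν) :=
        lintegral_mono fun V => h V
    _ = c := by rw [lintegral_const, measure_univ, mul_one]

end marg

/-! ### the kernel -/

/-- the hopping operator on all functions -/
def lapLin (d : ℕ) : (Site d → ℂ) →ₗ[ℂ] (Site d → ℂ) where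
  toFun f := lap f
  map_add' f g := by
    funext x
    simp only [lap, Pi.add_apply]
    rw [← Finset.sum_add_distrib]
    refine Finset.sum_congr rfl fun i _ => ?_
    ring
  map_smul' c f := by
    funext x
    simp only [lap, Pi.smul_apply, smul_eq_mul, RingHom.id_apply]
    rw [Finset.mul_sum]
    refine Finset.sum_congr rfl fun i _ => ?_
    ring

/-- the kernel of the resolvent -/
def KI (z : ℂ) (V : Cfg d) : Kern (Site d) := fun x y => G V z (del y) x

theorem app_KI {z : ℂ} (V : Cfg d) (f : Site d →₀ ℂ) (x : Site d) :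
    app (KI z V) f x = G V z (∑ y ∈ f.support, f y • (del y : L2 d)) x := by
  unfold app KI
  rw [map_sum, lp.coeFn_sum, Finset.sum_apply, Finsupp.sum]
  refine Finset.sum_congr rfl fun y _ => ?_
  rw [map_smul, lp.coeFn_smul, Pi.smul_apply, smul_eq_mul, mul_comm]

theorem ker_KI {z : ℂ} (hz : 0 < z.im) (V : Cfg d) :
    Ker (lapLin d) (fun i => (V i : ℂ) - z) (KI z V) where
  symm x y := Pool.Agent.QE.G_symm hz.ne' x y
  eqn x y := by
    have h := G_eq (V := V) hz.ne' (del y) x
    rw [del_apply] at h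
    exact h
  neg x := by simp [hz]
  pos f T := by
    set F : L2 d := ∑ y ∈ f.support, f y • (del y : L2 d) with hF
    have h1 : form (KI z V) f = ⟪F, G V z F⟫_ℂ := by
      unfold form
      rw [hF, sum_inner, Finsupp.sum]
      refine Finset.sum_congr rfl fun x _ => ?_
      rw [app_KI, ← hF, inner_smul_left, inner_del_left]
    rw [h1, (isRes_G V).im_inner hz.ne']
    have h2 := lp.sum_rpow_le_norm_rpow (p := 2) (by norm_num) (G V z F) T
    have e2 : ((2 : ℝ≥0∞).toReal) = (2 : ℝ) := by norm_num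
    rw [e2] at h2
    calc ∑ u ∈ T, (-((V u : ℂ) - z).im) * ‖app (KI z V) f u‖ ^ 2
        = z.im * ∑ u ∈ T, ‖G V z F u‖ ^ (2 : ℝ) := by
          rw [Finset.mul_sum]
          refine Finset.sum_congr rfl fun u _ => ?_
          rw [app_KI, ← hF, Real.rpow_two]
          simp
      _ ≤ z.im * ‖G V z F‖ ^ (2 : ℝ) := mul_le_mul_of_nonneg_left h2 hz.le
      _ = _ := by rw [Real.rpow_two]

theorem KI_update {z : ℂ} (hz : 0 < z.im) (V : Cfg d) (i : Site d) (v : ℝ) :
    KI z (Function.update V i v) = upk i ((v : ℂ) - V i) (KI z V) := by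
  funext x y
  set w : ℂ := (v : ℂ) - V i with hw
  set V' := Function.update V i v with hV'
  have hD := (ker_KI hz V).den_ne (w := w) (by simp [hw]) i
  have key : ∀ x, KI z V x y = KI z V' x y + w * KI z V' i y * KI z V x i := by
    intro x
    have h := Pool.Agent.QE.G_upd (V := V) hz.ne' i v (del y)
    have h1 := congrArg (fun g : L2 d => g x) h
    simp only [lp.coeFn_add, Pi.add_apply, lp.coeFn_smul, Pi.smul_apply, smul_eq_mul] at h1
    exact h1
  have h1 : KI z V' i y = KI z V i y / (1 + w * KI z V i i) := by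
    rw [eq_div_iff hD]
    linear_combination -(key i)
  have h2 := key x
  unfold upk
  rw [h1] at h2
  field_simp
  field_simp at h2
  linear_combination -h2

theorem measurable_KI {z : ℂ} (hz : z.im ≠ 0) (x y : Site d) :
    Measurable fun V : Cfg d => KI z V x y := by
  have h := (Pool.Agent.QE.Cov.res (d := d) hz).meas (del y)
  have h2 : StronglyMeasurable fun V : Cfg d => ⟪(del x : L2 d), G V z (del y)⟫_ℂ :=
    stronglyMeasurable_const.inner h
  simp only [inner_del_left] at h2
  exact h2.measurable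

theorem fam_KI {z : ℂ} (hz : 0 < z.im) :
    Fam (lapLin d) (fun i : Site d => i) z (KI z) where
  ker V := ker_KI hz V
  upd V i v := KI_update hz V i v
  inj := fun _ _ h => h
  meas := measurable_KI hz.ne'

end Pool.Agent.LE.H54
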