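import Pool.Agent.LE.StmtsB
import Pool.Agent.Helper54_LE.APG2
import Pool.Agent.Helper54_LE.FMN

/-!
# The resolvent of the lattice: moments and chaining (APG)
-/

set_option autoImplicit false
set_option linter.unusedSectionVars false

open scoped InnerProductSpace ComplexConjugate Topology ENNReal
open MeasureTheory Filter ProbabilityTheory

noncomputable section

namespace Pool.Agent.LE.H54

open Pool.Agent.Anderson Pool.Agent.Loc Pool.Agent.Mob Pool.Agent.Helper54.Bal Pool.Agent.LY

variable {d : ℕ}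

section abs

variable {Ω : Type*} [MeasurableSpace Ω] {μ : Measure Ω} {h : Ω → Site d → Site d → ℝ}
  {C1 C2 p : ℝ}

theorem pathA (hp : 1 ≤ p) (hC1 : 0 ≤ C1) (hC2 : 0 ≤ C2)
    (mh : ∀ x y, Measurable fun V => h V x y)
    (h1 : ∀ x y : Site d, (x = y ∨ hop x y ≠ 0) →
      Nn μ p (fun V => Dp (h V x y)) ≤ ENNReal.ofReal C1)
    (h2 : ∀ x u y : Site d, Nn μ p
      (fun V => Rp (h V x u) (h V u y) (h V x y)) ≤ ENNReal.ofReal C2)
    (c : Site d) (m : ℕ) :
    ∀ s : Site d, l1 c s = m →
      Nn μ p (fun V => Dp (h V c s)) ≤ ENNReal.ofReal ((m + 1) * (C1 + C2)) := by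
  induction m with
  | zero =>
    intro s hs
    have hsc : s = c := by
      by_contra hne
      obtain ⟨s', hs', -⟩ := closer hne
      omega
    subst hsc
    refine (h1 s s (Or.inl rfl)).trans (ENNReal.ofReal_le_ofReal ?_)
    push_cast
    linarith
  | succ m ih =>
    intro s hs
    have hne : s ≠ c := by
      rintro rfl
      unfold l1 at hs
      simp at hs
    obtain ⟨s', hs', -, hhop⟩ := closer hne
    have hm := ih s' (by omega)
    have mD : ∀ x y, Measurable fun V : Ω => Dp (h V x y) := fun x y =>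
      measurable_Dp.comp (mh x y)
    have mR : Measurable fun V : Ω => Rp (h V c s') (h V s' s) (h V c s) :=
      measurable_Rp (mh _ _) (mh _ _) (mh _ _)
    calc Nn μ p (fun V => Dp (h V c s))
        ≤ Nn μ p (fun V => (Dp (h V c s') + Dp (h V s' s)) +
            Rp (h V c s') (h V s' s) (h V c s)) :=
          Nn_mono (by linarith) fun V => Dp_le _ _ _
      _ ≤ (Nn μ p (fun V => Dp (h V c s')) +
            Nn μ p (fun V => Dp (h V s' s))) +
            Nn μ p (fun V => Rp (h V c s') (h V s' s) (h V c s)) :=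
          (Nn_add hp ((mD _ _).add (mD _ _)) mR).trans
            (add_le_add (Nn_add hp (mD _ _) (mD _ _)) le_rfl)
      _ ≤ (ENNReal.ofReal ((m + 1) * (C1 + C2)) + ENNReal.ofReal C1) + ENNReal.ofReal C2 := by
          gcongr
          · exact h1 s' s (Or.inr hhop)
          · exact h2 c s' s
      _ = _ := by
          rw [← ENNReal.ofReal_add (by positivity) hC1, ← ENNReal.ofReal_add (by positivity) hC2]
          congr 1
          push_cast
          ring

/-- the maximum of `- log |G|` in a cube -/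
def SA (h : Ω → Site d → Site d → ℝ) (c : Site d) (n : ℕ) (V : Ω) : ℝ≥0∞ :=
  (box c n).sup fun s => Dp (h V c s)

theorem measurable_SA (mh : ∀ x y, Measurable fun V => h V x y) (c : Site d) (n : ℕ) :
    Measurable (SA h c n) :=
  measurable_fsup _ fun s => measurable_Dp.comp (mh c s)

theorem recursionA (hd : 1 ≤ d) (hC1 : 0 ≤ C1) (hC2 : 0 ≤ C2)
    (mh : ∀ x y, Measurable fun V => h V x y)
    (h1 : ∀ x y : Site d, (x = y ∨ hop x y ≠ 0) →
      Nn μ ((4 * d : ℕ) : ℝ) (fun V => Dp (h V x y)) ≤ ENNReal.ofReal C1)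
    (h2 : ∀ x u y : Site d, Nn μ ((4 * d : ℕ) : ℝ)
      (fun V => Rp (h V x u) (h V u y) (h V x y)) ≤ ENNReal.ofReal C2)
    (n : ℕ) : 1 ≤ n → ∀ c : Site d,
      Nn μ ((4 * d : ℕ) : ℝ) (SA h c n) ≤
        ENNReal.ofReal ((12 * d * (C1 + C2) + 81 * C2) * n) := by
  have hd1 : (1 : ℝ) ≤ d := by exact_mod_cast hd
  have hp1 : (1 : ℝ) ≤ ((4 * d : ℕ) : ℝ) := by
    push_cast; linarith
  have hp0 : (0 : ℝ) < ((4 * d : ℕ) : ℝ) := by linarith
  have mD : ∀ x y, Measurable fun V : Ω => Dp (h V x y) := fun x y =>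
    measurable_Dp.comp (mh x y)
  have mR : ∀ x u y, Measurable fun V : Ω =>
      Rp (h V x u) (h V u y) (h V x y) := fun x u y =>
    measurable_Rp (mh _ _) (mh _ _) (mh _ _)
  have hpath : ∀ (n : ℕ) (c : Site d), ∀ s, sd c s ≤ n →
      Nn μ ((4 * d : ℕ) : ℝ) (fun V => Dp (h V c s)) ≤
        ENNReal.ofReal ((d * n + 1) * (C1 + C2)) := by
    intro n c s hs
    refine (pathA hp1 hC1 hC2 mh h1 h2 c (l1 c s) s rfl).trans (ENNReal.ofReal_le_ofReal ?_)
    have h3 : (l1 c s : ℝ) ≤ d * n := by exact_mod_cast l1_le c s hs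
    have h4 : 0 ≤ C1 + C2 := by linarith
    nlinarith
  have h34 : ENNReal.ofReal (((3 : ℕ) : ℝ) ^ (1 / 4 : ℝ)) ≤ ENNReal.ofReal (4 / 3) :=
    ENNReal.ofReal_le_ofReal (by push_cast; exact three_le)
  induction n using Nat.strong_induction_on with
  | _ n ih =>
    intro hn c
    rcases Nat.lt_or_ge n 2 with hn2 | hn2
    · have hn1 : n = 1 := by omega
      subst hn1
      have h3 := Nn_sup (μ := μ) hp0 (box c 1) (f := fun s V => Dp (h V c s))
        (fun s _ => mD c s) (C := ENNReal.ofReal ((d * (1 : ℕ) + 1) * (C1 + C2)))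
        (fun s hs => hpath 1 c s (mem_box.1 hs))
      refine h3.trans ?_
      have h4 : (((box c 1).card : ℕ) : ℝ≥0∞) ^ (1 / ((4 * d : ℕ) : ℝ)) ≤
          ENNReal.ofReal (4 / 3) :=
        (card_pow_le hd (a := 3) (by rw [card_box])).trans h34
      refine (mul_le_mul' h4 le_rfl).trans ?_
      rw [← ENNReal.ofReal_mul (by norm_num)]
      apply ENNReal.ofReal_le_ofReal
      push_cast
      have h5 : 0 ≤ C1 + C2 := by linarith
      nlinarith [mul_nonneg (sub_nonneg.2 hd1) h5]
    · set r' := n / 2 with hr'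
      set r := n - r' with hr
      have hrr : r + r' = n := by omega
      have hle : r' ≤ r := by omega
      have hrn : r < n := by omega
      have hr1 : 1 ≤ r := by omega
      have h23 : 3 * r ≤ 2 * n := by omega
      -- the pointwise inequality
      have hpt : ∀ V, SA h c n V ≤ ((Wc c r').sup (fun w => Dp (h V c w)) +
          (Wc c r').sup (fun w => SA h w r V)) +
          ((Wc c r') ×ˢ (box c n)).sup (fun q => Rp (h V c q.1) (h V q.1 q.2)
            (h V c q.2)) := by
        intro V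
        unfold SA
        apply Finset.sup_le
        intro s hs
        obtain ⟨w, hw, hws⟩ := exists_Wc (mem_box.1 hs) hrr hle
        refine (Dp_le (h V c w) (h V w s) _).trans ?_
        refine add_le_add (add_le_add ?_ ?_) ?_
        · exact Finset.le_sup (f := fun w => Dp (h V c w)) hw
        · refine le_trans ?_ (Finset.le_sup (f := fun w => (box w r).sup fun s =>
            Dp (h V w s)) hw)
          exact Finset.le_sup (f := fun s => Dp (h V w s)) (mem_box.2 hws)
        · exact Finset.le_sup (f := fun q : Site d × Site d => Rp (h V c q.1)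
            (h V q.1 q.2) (h V c q.2)) (Finset.mk_mem_product hw hs)
      have m1 : Measurable fun V => (Wc c r').sup (fun w => Dp (h V c w)) :=
        measurable_fsup _ fun w => mD c w
      have m2 : Measurable fun V => (Wc c r').sup (fun w => SA h w r V) :=
        measurable_fsup _ fun w => measurable_SA mh w r
      have m3 : Measurable fun V => ((Wc c r') ×ˢ (box c n)).sup (fun q => Rp (h V c q.1)
          (h V q.1 q.2) (h V c q.2)) :=
        measurable_fsup _ fun q => mR c q.1 q.2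
      have hW : (((Wc c r').card : ℕ) : ℝ≥0∞) ^ (1 / ((4 * d : ℕ) : ℝ)) ≤
          ENNReal.ofReal (4 / 3) :=
        (card_pow_le hd (a := 3) (card_Wc c r')).trans h34
      have n1 : Nn μ ((4 * d : ℕ) : ℝ)
          (fun V => (Wc c r').sup (fun w => Dp (h V c w))) ≤
          ENNReal.ofReal (4 / 3 * ((d * r' + 1) * (C1 + C2))) := by
        refine (Nn_sup hp0 (Wc c r') (f := fun w V => Dp (h V c w)) (fun w _ => mD c w)
          (C := ENNReal.ofReal ((d * r' + 1) * (C1 + C2)))
          (fun w hw => hpath r' c w (sd_Wc hw))).trans ?_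
        rw [ENNReal.ofReal_mul (p := 4 / 3) (by norm_num)]
        exact mul_le_mul' hW le_rfl
      have n2 : Nn μ ((4 * d : ℕ) : ℝ)
          (fun V => (Wc c r').sup (fun w => SA h w r V)) ≤
          ENNReal.ofReal (4 / 3 * ((12 * d * (C1 + C2) + 81 * C2) * r)) := by
        refine (Nn_sup hp0 (Wc c r') (f := fun w V => SA h w r V)
          (fun w _ => measurable_SA mh w r)
          (C := ENNReal.ofReal ((12 * d * (C1 + C2) + 81 * C2) * r))
          (fun w hw => ih r hrn hr1 w)).trans ?_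
        rw [ENNReal.ofReal_mul (p := 4 / 3) (by norm_num)]
        exact mul_le_mul' hW le_rfl
      have n3 : Nn μ ((4 * d : ℕ) : ℝ)
          (fun V => ((Wc c r') ×ˢ (box c n)).sup (fun q => Rp (h V c q.1)
          (h V q.1 q.2) (h V c q.2))) ≤ ENNReal.ofReal (9 * n * C2) := by
        refine (Nn_sup hp0 ((Wc c r') ×ˢ (box c n)) (f := fun q V => Rp (h V c q.1)
          (h V q.1 q.2) (h V c q.2)) (fun q _ => mR c q.1 q.2)
          (C := ENNReal.ofReal C2) (fun q _ => h2 c q.1 q.2)).trans ?_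
        have hcard : ((Wc c r') ×ˢ (box c n)).card ≤ (3 * (2 * n + 1)) ^ d := by
          rw [Finset.card_product, card_box, mul_pow]
          exact Nat.mul_le_mul_right _ (card_Wc c r')
        have h5 := card_pow_le hd hcard
        have h6 : ((3 * (2 * n + 1) : ℕ) : ℝ) ^ (1 / 4 : ℝ) ≤ 9 * n := by
          have h7 : (1 : ℝ) ≤ ((3 * (2 * n + 1) : ℕ) : ℝ) := by
            push_cast
            have : (0 : ℝ) ≤ n := Nat.cast_nonneg n
            linarith
          have hn1 : (1 : ℝ) ≤ n := by exact_mod_cast hn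
          calc ((3 * (2 * n + 1) : ℕ) : ℝ) ^ (1 / 4 : ℝ) ≤ ((3 * (2 * n + 1) : ℕ) : ℝ) ^ (1 : ℝ) :=
                Real.rpow_le_rpow_of_exponent_le h7 (by norm_num)
            _ = 3 * (2 * n + 1) := by rw [Real.rpow_one]; push_cast; ring
            _ ≤ _ := by linarith
        rw [ENNReal.ofReal_mul (by positivity)]
        refine mul_le_mul' (h5.trans (ENNReal.ofReal_le_ofReal h6)) le_rfl
      have hC12 : 0 ≤ C1 + C2 := by linarith
      calc Nn μ ((4 * d : ℕ) : ℝ) (SA h c n)
          ≤ Nn μ ((4 * d : ℕ) : ℝ) (fun V =>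
              ((Wc c r').sup (fun w => Dp (h V c w)) +
              (Wc c r').sup (fun w => SA h w r V)) +
              ((Wc c r') ×ˢ (box c n)).sup (fun q => Rp (h V c q.1) (h V q.1 q.2)
              (h V c q.2))) := Nn_mono hp0 hpt
        _ ≤ (ENNReal.ofReal (4 / 3 * ((d * r' + 1) * (C1 + C2))) +
              ENNReal.ofReal (4 / 3 * ((12 * d * (C1 + C2) + 81 * C2) * r))) +
              ENNReal.ofReal (9 * n * C2) := by
            refine (Nn_add hp1 (m1.add m2) m3).trans ?_
            refine add_le_add ((Nn_add hp1 m1 m2).trans (add_le_add n1 n2)) n3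
        _ ≤ _ := by
            rw [← ENNReal.ofReal_add (by positivity) (by positivity),
              ← ENNReal.ofReal_add (by positivity) (by positivity)]
            apply ENNReal.ofReal_le_ofReal
            have e1 : (3 : ℝ) * r ≤ 2 * n := by exact_mod_cast h23
            have e2 : (2 : ℝ) * r' ≤ n := by
              have : 2 * r' ≤ n := by omega
              exact_mod_cast this
            have e3 : (2 : ℝ) ≤ n := by exact_mod_cast hn2
            have e4 : (d : ℝ) * r' + 1 ≤ d * n := by nlinarith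
            have e5 : 4 / 3 * (((d : ℝ) * r' + 1) * (C1 + C2)) ≤ 4 / 3 * (d * n * (C1 + C2)) := by
              gcongr
            have e6 : 4 / 3 * ((12 * d * (C1 + C2) + 81 * C2) * r) ≤
                8 / 9 * ((12 * d * (C1 + C2) + 81 * C2) * n) := by
              have e7 : 0 ≤ 12 * d * (C1 + C2) + 81 * C2 := by positivity
              nlinarith
            linarith


theorem chnA (hd : 1 ≤ d) (hC1 : 0 ≤ C1) (hC2 : 0 ≤ C2)
    (mh : ∀ x y, Measurable fun V => h V x y)
    (h1 : ∀ x y : Site d, (x = y ∨ hop x y ≠ 0) →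
      Nn μ ((4 * d : ℕ) : ℝ) (fun V => Dp (h V x y)) ≤ ENNReal.ofReal C1)
    (h2 : ∀ x u y : Site d, Nn μ ((4 * d : ℕ) : ℝ)
      (fun V => Rp (h V x u) (h V u y) (h V x y)) ≤ ENNReal.ofReal C2)
    (n : ℕ) (hn : 1 ≤ n) (c : Site d) {t : ℝ} (ht : 0 < t) :
    μ {V | ∃ s ∈ box c n, |h V c s| < Real.exp (-t)} ≤
      ENNReal.ofReal ((12 * d * (C1 + C2) + 81 * C2) ^ (4 * d) * (n / t) ^ (4 * d)) := by
  have hd1 : (1 : ℝ) ≤ d := by exact_mod_cast hd
  have hp0 : (0 : ℝ) < ((4 * d : ℕ) : ℝ) := by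
    push_cast; linarith
  set A : ℝ := 12 * d * (C1 + C2) + 81 * C2 with hA
  have hA0 : 0 ≤ A := by positivity
  have hrec := recursionA hd hC1 hC2 mh h1 h2 n hn c
  rw [← hA] at hrec
  have hint : ∫⁻ V, (SA h c n V) ^ ((4 * d : ℕ) : ℝ) ∂μ ≤
      (ENNReal.ofReal (A * n)) ^ ((4 * d : ℕ) : ℝ) := by
    rw [← Nn_rpow hp0]
    exact ENNReal.rpow_le_rpow hrec hp0.le
  have hsub : {V : Ω | ∃ s ∈ box c n, |h V c s| < Real.exp (-t)} ⊆
      {V | (ENNReal.ofReal t) ^ ((4 * d : ℕ) : ℝ) ≤ (SA h c n V) ^ ((4 * d : ℕ) : ℝ)} := by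
    rintro V ⟨s, hs, hlt⟩
    rw [Set.mem_ofPred_eq]
    apply ENNReal.rpow_le_rpow _ hp0.le
    refine le_trans ?_ (Finset.le_sup (f := fun s => Dp (h V c s)) hs)
    unfold Dp
    split_ifs with h0
    · exact le_top
    · apply ENNReal.ofReal_le_ofReal
      have h3 : 0 < |h V c s| := abs_pos.2 h0
      have h4 := Real.log_lt_log h3 hlt
      rw [Real.log_exp] at h4
      linarith
  have ht0 : (ENNReal.ofReal t) ^ ((4 * d : ℕ) : ℝ) ≠ 0 := by
    rw [ENNReal.ofReal_rpow_of_pos ht, Ne, ENNReal.ofReal_eq_zero, not_le]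
    positivity
  have htt : (ENNReal.ofReal t) ^ ((4 * d : ℕ) : ℝ) ≠ ∞ := by
    rw [ENNReal.ofReal_rpow_of_pos ht]
    exact ENNReal.ofReal_ne_top
  calc μ {V | ∃ s ∈ box c n, |h V c s| < Real.exp (-t)}
      ≤ μ {V | (ENNReal.ofReal t) ^ ((4 * d : ℕ) : ℝ) ≤
          (SA h c n V) ^ ((4 * d : ℕ) : ℝ)} := measure_mono hsub
    _ ≤ (∫⁻ V, (SA h c n V) ^ ((4 * d : ℕ) : ℝ) ∂μ) /
          (ENNReal.ofReal t) ^ ((4 * d : ℕ) : ℝ) :=
        meas_ge_le_lintegral_div ((measurable_SA mh c n).pow_const _).aemeasurable ht0 htt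
    _ ≤ (ENNReal.ofReal (A * n)) ^ ((4 * d : ℕ) : ℝ) /
          (ENNReal.ofReal t) ^ ((4 * d : ℕ) : ℝ) := by gcongr
    _ = _ := by
        rw [ENNReal.ofReal_rpow_of_nonneg (by positivity) hp0.le, ENNReal.ofReal_rpow_of_pos ht,
          ← ENNReal.ofReal_div_of_pos (by positivity), Real.rpow_natCast, Real.rpow_natCast,
          div_pow, mul_pow]
        congr 1
        ring

end abs

end Pool.Agent.LE.H54
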