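import Pool.Agent.Helper54_LE.FMN

/-!
# Constants which are uniform for bounded energies and `s₀ ≤ |σ| ≤ s₁` (UNI)
-/

set_option autoImplicit false
set_option linter.unusedSectionVars false

open scoped Topology ENNReal
open MeasureTheory Filter ProbabilityTheory

noncomputable section

namespace Pool.Agent.LE.H54

open Pool.Agent.Anderson Pool.Agent.Loc Pool.Agent.Mob Pool.Agent.Helper54.Bal Pool.Agent.LY

variable {d : ℕ}

theorem bddDens_mono {ν : Measure ℝ} {ρ ρ' : ℝ} (h : BddDens ν ρ) (hρ : ρ ≤ ρ') :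
    BddDens ν ρ' := by
  refine ⟨h.1.trans_le hρ, fun a b => ?_⟩
  rcases le_or_gt a b with hab | hab
  · exact (h.2 a b).trans (ENNReal.ofReal_le_ofReal
      (mul_le_mul_of_nonneg_right hρ (sub_nonneg.2 hab)))
  · rw [Set.Icc_eq_empty (not_le.2 hab), measure_empty]
    exact zero_le

theorem bddDens_u {σ s₀ : ℝ} (hs₀ : 0 < s₀) (hσ : s₀ ≤ |σ|) : BddDens (gl σ) (1 / s₀) := by
  have h0 : σ ≠ 0 := abs_pos.1 (hs₀.trans_le hσ)
  exact bddDens_mono (bddDens_gl h0) (one_div_le_one_div_of_le hs₀ hσ)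

theorem mom1_mono {σ s₁ : ℝ} (hσ : |σ| ≤ s₁) : mom1 (gl σ) ≤ mom1 (gl s₁) := by
  have hs : 0 ≤ s₁ := (abs_nonneg σ).trans hσ
  unfold mom1 gl
  rw [lintegral_map (by fun_prop) (by fun_prop), lintegral_map (by fun_prop) (by fun_prop)]
  refine lintegral_mono fun t => ENNReal.ofReal_le_ofReal ?_
  rw [abs_mul, abs_mul, abs_of_nonneg hs]
  exact mul_le_mul_of_nonneg_right hσ (abs_nonneg t)

theorem Clow_mono {σ s₁ ρ M : ℝ} (hσ : |σ| ≤ s₁) : Clow d (gl σ) ρ M ≤ Clow d (gl s₁) ρ M := by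
  unfold Clow CC
  gcongr
  exact mom1_mono hσ

/-- the negative moment, uniformly -/
theorem low_u (M₀ : ℝ) {s₀ : ℝ} (s₁ : ℝ) (hs₀ : 0 < s₀) : ∃ C : ℝ, 0 < C ∧ ∀ σ E : ℝ,
    s₀ ≤ |σ| → |σ| ≤ s₁ → |E| ≤ M₀ → ∀ (Λ : Finset (Site d))
    (x y : Site d), x ∈ Λ → y ∈ Λ → (x = y ∨ hop x y ≠ 0) →
    ∫⁻ V, (ENNReal.ofReal |gr V Λ E x y|) ^ (-(1 / 4) : ℝ) ∂(PL (gl σ) Λ) ≤ ENNReal.ofReal C := by
  set M : ℝ := 32 * (d : ℝ) ^ 2 + 4 + |M₀| with hM
  have hM0 : 0 < M := by positivity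
  refine ⟨(Clow d (gl s₁) (1 / s₀) M).toReal + 1, by positivity, ?_⟩
  intro σ E h0 h1 hE Λ x y hx hy hxy
  refine (low (bddDens_u hs₀ h0) (M := M) ?_ Λ ?_ hx hy hxy).trans
    ((Clow_mono h1).trans ?_)
  · rw [hM]; have := abs_nonneg M₀; linarith
  · rw [hM]
    have : 0 ≤ 32 * (d : ℝ) ^ 2 := by positivity
    have := le_abs_self M₀
    linarith
  · rw [← ENNReal.ofReal_toReal (Clow_gl (d := d) s₁ (1 / s₀) hM0.ne')]
    apply ENNReal.ofReal_le_ofReal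
    rw [ENNReal.toReal_ofReal ENNReal.toReal_nonneg]
    linarith

theorem near_u (M₀ : ℝ) {s₀ : ℝ} (s₁ : ℝ) (hs₀ : 0 < s₀) {p : ℝ} (hp : 0 < p) :
    ∃ C : ℝ, 0 ≤ C ∧ ∀ σ E : ℝ, s₀ ≤ |σ| → |σ| ≤ s₁ → |E| ≤ M₀ →
    ∀ (Λ : Finset (Site d)) (x y : Site d), x ∈ Λ → y ∈ Λ → (x = y ∨ hop x y ≠ 0) →
    Nn (PL (gl σ) Λ) p (fun V => Dp (gr V Λ E x y)) ≤ ENNReal.ofReal C := by
  obtain ⟨C, hC, h⟩ := low_u (d := d) M₀ s₁ hs₀
  refine ⟨((4 * p) ^ p * C) ^ (1 / p), by positivity, ?_⟩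
  intro σ E h0 h1 hE Λ x y hx hy hxy
  rw [← ENNReal.ofReal_rpow_of_nonneg (by positivity) (by positivity)]
  apply Nn_le hp
  calc ∫⁻ V, (Dp (gr V Λ E x y)) ^ p ∂(PL (gl σ) Λ)
      ≤ ∫⁻ V, ENNReal.ofReal ((4 * p) ^ p) * (ENNReal.ofReal |gr V Λ E x y|) ^ (-(1 / 4) : ℝ)
          ∂(PL (gl σ) Λ) := lintegral_mono fun V => Dp_rpow_le hp _
    _ = ENNReal.ofReal ((4 * p) ^ p) * ∫⁻ V, (ENNReal.ofReal |gr V Λ E x y|) ^ (-(1 / 4) : ℝ)
          ∂(PL (gl σ) Λ) := lintegral_const_mul' _ _ ENNReal.ofReal_ne_top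
    _ ≤ ENNReal.ofReal ((4 * p) ^ p) * ENNReal.ofReal C := by
        gcongr
        exact h σ E h0 h1 hE Λ x y hx hy hxy
    _ = _ := by rw [← ENNReal.ofReal_mul (by positivity)]

/-- the ratio, with a constant which depends only on the bound of the density -/
theorem ratio_core {σ ρ p E : ℝ} (hν : BddDens (gl σ) ρ) (hp : 0 < p)
    (Λ : Finset (Site d)) (x u y : Site d) :
    Nn (PL (gl σ) Λ) p (fun V => Rp (gr V Λ E x u) (gr V Λ E u y) (gr V Λ E x y)) ≤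
      ENNReal.ofReal (((2 * p) ^ p * (1 + 8 * ρ)) ^ (1 / p)) := by
  have hρ : 0 < ρ := hν.1
  rw [← ENNReal.ofReal_rpow_of_nonneg (by positivity) (by positivity)]
  apply Nn_le hp
  have hone : ∀ τ : ℝ, 0 < τ → PL (gl σ) Λ {V | τ * |gr V Λ E x y| < |gr V Λ E x u| *
      |gr V Λ E u y|} ≤ ENNReal.ofReal (8 * ρ / τ) := fun τ hτ => one hν Λ E u x y hτ
  have hnull : PL (gl σ) Λ {V | gr V Λ E x y = 0 ∧ gr V Λ E x u * gr V Λ E u y ≠ 0} = 0 := by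
    have h1 : ∀ k : ℕ, PL (gl σ) Λ {V | gr V Λ E x y = 0 ∧ gr V Λ E x u * gr V Λ E u y ≠ 0} ≤
        ENNReal.ofReal (8 * ρ / ((k : ℝ) + 1)) := by
      intro k
      refine (measure_mono ?_).trans (hone ((k : ℝ) + 1) (by positivity))
      rintro V ⟨h2, h3⟩
      rw [Set.mem_ofPred_eq, h2, abs_zero, mul_zero, ← abs_mul]
      exact abs_pos.2 h3
    have h2 : Tendsto (fun k : ℕ => ENNReal.ofReal (8 * ρ / ((k : ℝ) + 1))) atTop
        (𝓝 (ENNReal.ofReal 0)) := by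
      apply ENNReal.tendsto_ofReal
      have := (tendsto_one_div_add_atTop_nhds_zero_nat (𝕜 := ℝ)).const_mul (8 * ρ)
      rw [mul_zero] at this
      refine this.congr fun k => ?_
      ring
    rw [ENNReal.ofReal_zero] at h2
    exact le_antisymm (ge_of_tendsto' h2 h1) zero_le
  set f : (Site d → ℝ) → ℝ := fun V => |gr V Λ E x u| * |gr V Λ E u y| / |gr V Λ E x y| with hf
  have hfm : Measurable f := by
    have h1 := measurable_gr Λ E x u
    have h2 := measurable_gr Λ E u y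
    have h3 := measurable_gr Λ E x y
    exact ((h1.abs.mul h2.abs)).div h3.abs
  have hweak : ∀ τ : ℝ, 0 < τ → PL (gl σ) Λ {V | τ < |f V|} ≤ ENNReal.ofReal (8 * ρ / τ) := by
    intro τ hτ
    refine (measure_mono ?_).trans (hone τ hτ)
    intro V hV
    have h0 : 0 ≤ f V := by rw [hf]; positivity
    rw [Set.mem_ofPred_eq, abs_of_nonneg h0] at hV
    rw [Set.mem_ofPred_eq]
    have hne : |gr V Λ E x y| ≠ 0 := by
      intro h1
      rw [hf] at hV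
      simp only [h1, div_zero] at hV
      linarith
    have hpos : 0 < |gr V Λ E x y| := lt_of_le_of_ne (abs_nonneg _) (Ne.symm hne)
    exact (lt_div_iff₀ hpos).1 hV
  have hint := weak_sqrt hfm (B := Set.univ) (c := 8 * ρ) (by positivity) hweak (a := 1) one_pos
  rw [Measure.restrict_univ, measure_univ, mul_one, div_one,
    ← ENNReal.ofReal_add (by norm_num) (by positivity)] at hint
  have hae : ∀ᵐ V ∂(PL (gl σ) Λ), (Rp (gr V Λ E x u) (gr V Λ E u y) (gr V Λ E x y)) ^ p ≤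
      ENNReal.ofReal ((2 * p) ^ p) * ENNReal.ofReal (√|f V|) := by
    have h1 : ∀ᵐ V ∂(PL (gl σ) Λ), ¬ (gr V Λ E x y = 0 ∧ gr V Λ E x u * gr V Λ E u y ≠ 0) := by
      rw [ae_iff]
      simpa only [not_not] using hnull
    filter_upwards [h1] with V hV
    have h0 : 0 ≤ f V := by rw [hf]; positivity
    rw [abs_of_nonneg h0]
    by_cases hc : gr V Λ E x y = 0
    · have h2 : gr V Λ E x u * gr V Λ E u y = 0 := by
        by_contra h3
        exact hV ⟨hc, h3⟩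
      unfold Rp
      rw [if_pos hc, if_pos h2, ENNReal.zero_rpow_of_pos hp]
      exact zero_le
    · exact Rp_rpow_le hp hc
  calc _ ≤ ∫⁻ V, ENNReal.ofReal ((2 * p) ^ p) * ENNReal.ofReal (√|f V|) ∂(PL (gl σ) Λ) :=
        lintegral_mono_ae hae
    _ = ENNReal.ofReal ((2 * p) ^ p) * ∫⁻ V, ENNReal.ofReal (√|f V|) ∂(PL (gl σ) Λ) :=
        lintegral_const_mul' _ _ ENNReal.ofReal_ne_top
    _ ≤ ENNReal.ofReal ((2 * p) ^ p) * ENNReal.ofReal (1 + 8 * ρ) := by gcongr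
    _ = _ := by rw [← ENNReal.ofReal_mul (by positivity)]

/-- the moments from the two norm bounds -/
theorem fmn_core {σ E C1 C2 ρ : ℝ} (hd : 1 ≤ d) (hν : BddDens (gl σ) ρ)
    (hC1 : 0 ≤ C1) (hC2 : 0 ≤ C2)
    (h1 : ∀ (Λ : Finset (Site d)) (x y : Site d), x ∈ Λ → y ∈ Λ → (x = y ∨ hop x y ≠ 0) →
      Nn (PL (gl σ) Λ) 2 (fun V => Dp (gr V Λ E x y)) ≤ ENNReal.ofReal C1)
    (h2 : ∀ (Λ : Finset (Site d)) (x u y : Site d), Nn (PL (gl σ) Λ) 2
      (fun V => Rp (gr V Λ E x u) (gr V Λ E u y) (gr V Λ E x y)) ≤ ENNReal.ofReal C2) :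
    ∀ N : ℕ, FamN d N (PP d (gl σ)) ((d * (C1 + C2)) ^ 2 + 16 * (2 * √(6 * ρ)) + C2 ^ 2 + 1)
      (DL (box 0 N) E) ∧
    (∀ x ∈ box (0 : Site d) N, ∀ y ∈ box (0 : Site d) N,
      PP d (gl σ) {V | gr V (box 0 N) E x y = 0} = 0) := by
  have hρ : 0 < ρ := hν.1
  set C3 : ℝ := 16 * (2 * √(6 * ρ)) with hC3def
  have hC3 : 0 ≤ C3 := by positivity
  have hd1 : (1 : ℝ) ≤ d := by exact_mod_cast hd
  set A : ℝ := (d * (C1 + C2)) ^ 2 with hA
  have hA0 : 0 ≤ A := sq_nonneg _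
  intro N
  set Λ := box (0 : Site d) N with hΛ
  have mg : ∀ x y, Measurable fun V : Site d → ℝ => gr V Λ E x y := fun x y =>
    measurable_gr Λ E x y
  have mD : ∀ x y, Measurable fun V : Site d → ℝ => Dp (gr V Λ E x y) := fun x y =>
    measurable_Dp.comp (mg x y)
  have mU : ∀ x y, Measurable fun V : Site d → ℝ => Up (gr V Λ E x y) := fun x y =>
    measurable_Up.comp (mg x y)
  have mDL : ∀ x y, Measurable fun V : Site d → ℝ => DL Λ E V x y := fun x y => by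
    unfold DL
    exact (Real.measurable_log.comp (mg x y).abs).neg
  -- the three moments
  have hDp : ∀ x ∈ Λ, ∀ y ∈ Λ, ∫⁻ V, (Dp (gr V Λ E x y)) ^ (2 : ℝ) ∂(PP d (gl σ)) ≤
      ENNReal.ofReal (A * ((sd x y : ℝ) + 1) ^ 2) := by
    intro x hx y hy
    rw [lint_PP Λ ((mD x y).pow_const _) (fun V V' hV => by rw [gr_congr hV])]
    rw [← Nn_rpow (by norm_num)]
    have hp := path_in (σ := σ) (E := E) (p := 2) (N := N) (by norm_num) hC1 hC2
      (fun x y hx hy hxy => h1 Λ x y hx hy hxy) (fun x u y => h2 Λ x u y) hx (l1 x y) y rfl hy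
    refine (ENNReal.rpow_le_rpow hp (by norm_num)).trans ?_
    rw [ENNReal.ofReal_rpow_of_nonneg (by positivity) (by norm_num), Real.rpow_two]
    apply ENNReal.ofReal_le_ofReal
    have h3 : (l1 x y : ℝ) ≤ d * sd x y := by exact_mod_cast l1_le x y le_rfl
    have h4 : 0 ≤ C1 + C2 := by linarith
    have h5 : ((l1 x y : ℝ) + 1) ≤ d * ((sd x y : ℝ) + 1) := by linarith
    rw [hA, ← mul_pow]
    apply pow_le_pow_left₀ (by positivity)
    calc ((l1 x y : ℝ) + 1) * (C1 + C2) ≤ d * ((sd x y : ℝ) + 1) * (C1 + C2) :=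
          mul_le_mul_of_nonneg_right h5 h4
      _ = _ := by ring
  have hUp : ∀ x y, ∫⁻ V, (Up (gr V Λ E x y)) ^ (2 : ℝ) ∂(PP d (gl σ)) ≤ ENNReal.ofReal C3 := by
    intro x y
    rw [lint_PP Λ ((mU x y).pow_const _) (fun V V' hV => by rw [gr_congr hV])]
    calc ∫⁻ V, (Up (gr V Λ E x y)) ^ (2 : ℝ) ∂(PL (gl σ) Λ)
        ≤ ∫⁻ V, ENNReal.ofReal 16 * ENNReal.ofReal (√|gr V Λ E x y|) ∂(PL (gl σ) Λ) :=
          lintegral_mono fun V => Up_sq_le _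
      _ = ENNReal.ofReal 16 * ∫⁻ V, ENNReal.ofReal (√|gr V Λ E x y|) ∂(PL (gl σ) Λ) :=
          lintegral_const_mul' _ _ ENNReal.ofReal_ne_top
      _ ≤ ENNReal.ofReal 16 * ENNReal.ofReal (2 * √(6 * ρ)) := by
          gcongr
          exact PL_sqrt hν Λ E x y
      _ = _ := by rw [← ENNReal.ofReal_mul (by norm_num)]
  have hRp : ∀ x u y, ∫⁻ V, (Rp (gr V Λ E x u) (gr V Λ E u y) (gr V Λ E x y)) ^ (2 : ℝ)
      ∂(PP d (gl σ)) ≤ ENNReal.ofReal (C2 ^ 2) := by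
    intro x u y
    rw [lint_PP Λ ((measurable_Rp (mg x u) (mg u y) (mg x y)).pow_const _)
      (fun V V' hV => by rw [gr_congr hV, gr_congr hV, gr_congr hV])]
    rw [← Nn_rpow (by norm_num)]
    refine (ENNReal.rpow_le_rpow (h2 Λ x u y) (by norm_num)).trans ?_
    rw [ENNReal.ofReal_rpow_of_nonneg (by positivity) (by norm_num), Real.rpow_two]
  have hne : ∀ x ∈ Λ, ∀ y ∈ Λ, ∀ᵐ V ∂(PP d (gl σ)), gr V Λ E x y ≠ 0 := by
    intro x hx y hy
    have h := ae_lt_top ((mD x y).pow_const 2)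
      (ne_top_of_le_ne_top ENNReal.ofReal_ne_top (hDp x hx y hy))
    filter_upwards [h] with V hV h0
    rw [h0] at hV
    simp [Dp] at hV
  refine ⟨⟨mDL, ?_, ?_, ?_, ?_, ?_⟩, ?_⟩
  · intro V x y
    unfold DL
    rw [gr_symm]
  · intro x hx y hy
    have h := int_le (P := PP d (gl σ)) ((mDL x y).pow_const 2) (fun V => sq_nonneg _)
      (c := A * ((sd x y : ℝ) + 1) ^ 2 + C3) (by positivity) ?_
    · exact h.1
    · calc ∫⁻ V, ENNReal.ofReal (DL Λ E V x y ^ 2) ∂(PP d (gl σ))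
          ≤ ∫⁻ V, ((Dp (gr V Λ E x y)) ^ (2 : ℝ) + (Up (gr V Λ E x y)) ^ (2 : ℝ))
            ∂(PP d (gl σ)) := lintegral_mono fun V => ofReal_sq_le _
        _ = ∫⁻ V, (Dp (gr V Λ E x y)) ^ (2 : ℝ) ∂(PP d (gl σ)) +
            ∫⁻ V, (Up (gr V Λ E x y)) ^ (2 : ℝ) ∂(PP d (gl σ)) :=
            lintegral_add_left ((mD x y).pow_const _) _
        _ ≤ ENNReal.ofReal (A * ((sd x y : ℝ) + 1) ^ 2) + ENNReal.ofReal C3 :=
            add_le_add (hDp x hx y hy) (hUp x y)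
        _ = _ := by rw [← ENNReal.ofReal_add (by positivity) hC3]
  · intro x hx y hy
    have h := int_le (P := PP d (gl σ)) ((mDL x y).pow_const 2) (fun V => sq_nonneg _)
      (c := A * ((sd x y : ℝ) + 1) ^ 2 + C3) (by positivity) ?_
    · refine h.2.trans ?_
      have h3 : (1 : ℝ) ≤ ((sd x y : ℝ) + 1) ^ 2 := by
        have : (0 : ℝ) ≤ sd x y := Nat.cast_nonneg _
        nlinarith
      nlinarith [mul_le_mul_of_nonneg_left h3 hC3, mul_nonneg (sq_nonneg C2) (zero_le_one.trans h3)]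
    · calc ∫⁻ V, ENNReal.ofReal (DL Λ E V x y ^ 2) ∂(PP d (gl σ))
          ≤ ∫⁻ V, ((Dp (gr V Λ E x y)) ^ (2 : ℝ) + (Up (gr V Λ E x y)) ^ (2 : ℝ))
            ∂(PP d (gl σ)) := lintegral_mono fun V => ofReal_sq_le _
        _ = ∫⁻ V, (Dp (gr V Λ E x y)) ^ (2 : ℝ) ∂(PP d (gl σ)) +
            ∫⁻ V, (Up (gr V Λ E x y)) ^ (2 : ℝ) ∂(PP d (gl σ)) :=
            lintegral_add_left ((mD x y).pow_const _) _
        _ ≤ ENNReal.ofReal (A * ((sd x y : ℝ) + 1) ^ 2) + ENNReal.ofReal C3 :=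
            add_le_add (hDp x hx y hy) (hUp x y)
        _ = _ := by rw [← ENNReal.ofReal_add (by positivity) hC3]
  · intro x hx y hy
    have h := int_le (P := PP d (gl σ)) ((measurable_const.max (mDL x y).neg).pow_const 2)
      (f := fun V => (max 0 (-DL Λ E V x y)) ^ 2) (fun V => sq_nonneg _)
      (c := C3) hC3 ?_
    · refine h.2.trans ?_
      have := sq_nonneg C2
      linarith
    · refine le_trans (lintegral_mono fun V => ?_) (hUp x y)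
      unfold DL Up
      rw [neg_neg]
      rcases le_total 0 (Real.log |gr V Λ E x y|) with h0 | h0
      · rw [max_eq_right h0, ENNReal.ofReal_rpow_of_nonneg h0 (by norm_num), Real.rpow_two]
      · rw [max_eq_left h0]
        simp
  · intro x hx u hu y hy
    have h := int_le (P := PP d (gl σ))
      ((measurable_const.max (((mDL x y).sub (mDL x u)).sub (mDL u y))).pow_const 2)
      (f := fun V => (max 0 (DL Λ E V x y - DL Λ E V x u - DL Λ E V u y)) ^ 2)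
      (fun V => sq_nonneg _) (c := C2 ^ 2) (sq_nonneg _) ?_
    · refine h.2.trans ?_
      linarith
    · refine le_trans (lintegral_mono_ae ?_) (hRp x u y)
      filter_upwards [hne x hx u hu, hne u hu y hy, hne x hx y hy] with V ha hb hc
      have ha' : |gr V Λ E x u| ≠ 0 := abs_ne_zero.2 ha
      have hb' : |gr V Λ E u y| ≠ 0 := abs_ne_zero.2 hb
      have hc' : |gr V Λ E x y| ≠ 0 := abs_ne_zero.2 hc
      unfold DL Rp
      rw [if_neg hc]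
      have e : -Real.log |gr V Λ E x y| - -Real.log |gr V Λ E x u| - -Real.log |gr V Λ E u y| =
          Real.log (|gr V Λ E x u| * |gr V Λ E u y| / |gr V Λ E x y|) := by
        rw [Real.log_div (mul_ne_zero ha' hb') hc', Real.log_mul ha' hb']
        ring
      rw [e]
      set L := Real.log (|gr V Λ E x u| * |gr V Λ E u y| / |gr V Λ E x y|)
      rcases le_total 0 L with h0 | h0
      · rw [max_eq_right h0, ENNReal.ofReal_rpow_of_nonneg h0 (by norm_num), Real.rpow_two]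
      · rw [max_eq_left h0]
        simp
  · intro x hx y hy
    have h := hne x hx y hy
    rw [ae_iff] at h
    simpa using h

/-- the chaining bound from the two norm bounds -/
theorem chn_core {σ E C1 C2 : ℝ} (hd : 0 < d) (hC1 : 0 ≤ C1) (hC2 : 0 ≤ C2)
    (h1 : ∀ (Λ : Finset (Site d)) (x y : Site d), x ∈ Λ → y ∈ Λ → (x = y ∨ hop x y ≠ 0) →
      Nn (PL (gl σ) Λ) ((4 * d : ℕ) : ℝ) (fun V => Dp (gr V Λ E x y)) ≤ ENNReal.ofReal C1)
    (h2 : ∀ (Λ : Finset (Site d)) (x u y : Site d), Nn (PL (gl σ) Λ) ((4 * d : ℕ) : ℝ)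
      (fun V => Rp (gr V Λ E x u) (gr V Λ E u y) (gr V Λ E x y)) ≤ ENNReal.ofReal C2) :
    ChnTail d (gl σ) E ((12 * d * (C1 + C2) + 81 * C2) ^ (4 * d)) := by
  have hd1 : (1 : ℝ) ≤ d := by exact_mod_cast hd
  have hp0 : (0 : ℝ) < ((4 * d : ℕ) : ℝ) := by
    push_cast; linarith
  set A : ℝ := 12 * d * (C1 + C2) + 81 * C2 with hA
  have hA0 : 0 ≤ A := by positivity
  intro R n c t hn hc ht
  set Λ := box (0 : Site d) R with hΛ
  have hrec := recursion (σ := σ) (E := E) hd hC1 hC2 (fun x y hx hy hxy => h1 Λ x y hx hy hxy)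
    (fun x u y => h2 Λ x u y) n hn c hc
  rw [← hA] at hrec
  have hint : ∫⁻ V, (Sx Λ E c n V) ^ ((4 * d : ℕ) : ℝ) ∂(PL (gl σ) Λ) ≤
      (ENNReal.ofReal (A * n)) ^ ((4 * d : ℕ) : ℝ) := by
    rw [← Nn_rpow hp0]
    exact ENNReal.rpow_le_rpow hrec hp0.le
  have hsub : {V : Site d → ℝ | ∃ s ∈ box c n, |gr V Λ E c s| < Real.exp (-t)} ⊆
      {V | (ENNReal.ofReal t) ^ ((4 * d : ℕ) : ℝ) ≤ (Sx Λ E c n V) ^ ((4 * d : ℕ) : ℝ)} := by
    rintro V ⟨s, hs, hlt⟩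
    rw [Set.mem_ofPred_eq]
    apply ENNReal.rpow_le_rpow _ hp0.le
    refine le_trans ?_ (Finset.le_sup (f := fun s => Dp (gr V Λ E c s)) hs)
    unfold Dp
    split_ifs with h0
    · exact le_top
    · apply ENNReal.ofReal_le_ofReal
      have h3 : 0 < |gr V Λ E c s| := abs_pos.2 h0
      have h4 := Real.log_lt_log h3 hlt
      rw [Real.log_exp] at h4
      linarith
  have ht0 : (ENNReal.ofReal t) ^ ((4 * d : ℕ) : ℝ) ≠ 0 := by
    rw [ENNReal.ofReal_rpow_of_pos ht, Ne, ENNReal.ofReal_eq_zero, not_le]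
    positivity
  have htt : (ENNReal.ofReal t) ^ ((4 * d : ℕ) : ℝ) ≠ ∞ := by
    rw [ENNReal.ofReal_rpow_of_pos ht]
    exact ENNReal.ofReal_ne_top
  calc PL (gl σ) Λ {V | ∃ s ∈ box c n, |gr V Λ E c s| < Real.exp (-t)}
      ≤ PL (gl σ) Λ {V | (ENNReal.ofReal t) ^ ((4 * d : ℕ) : ℝ) ≤
          (Sx Λ E c n V) ^ ((4 * d : ℕ) : ℝ)} := measure_mono hsub
    _ ≤ (∫⁻ V, (Sx Λ E c n V) ^ ((4 * d : ℕ) : ℝ) ∂(PL (gl σ) Λ)) /
          (ENNReal.ofReal t) ^ ((4 * d : ℕ) : ℝ) :=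
        meas_ge_le_lintegral_div ((measurable_Sx Λ E c n).pow_const _).aemeasurable ht0 htt
    _ ≤ (ENNReal.ofReal (A * n)) ^ ((4 * d : ℕ) : ℝ) /
          (ENNReal.ofReal t) ^ ((4 * d : ℕ) : ℝ) := by gcongr
    _ = _ := by
        rw [ENNReal.ofReal_rpow_of_nonneg (by positivity) hp0.le, ENNReal.ofReal_rpow_of_pos ht,
          ← ENNReal.ofReal_div_of_pos (by positivity), Real.rpow_natCast, Real.rpow_natCast,
          div_pow, mul_pow]
        congr 1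
        ring

/-- **FMN with uniform constants** -/
theorem fmnU (hd : 1 ≤ d) (M₀ : ℝ) {s₀ : ℝ} (s₁ : ℝ) (hs₀ : 0 < s₀) : ∃ C : ℝ, 0 < C ∧
    ∀ σ E : ℝ, s₀ ≤ |σ| → |σ| ≤ s₁ → |E| ≤ M₀ → ∀ N : ℕ,
      FamN d N (PP d (gl σ)) C (DL (box 0 N) E) ∧
      (∀ x ∈ box (0 : Site d) N, ∀ y ∈ box (0 : Site d) N,
        PP d (gl σ) {V | gr V (box 0 N) E x y = 0} = 0) := by
  obtain ⟨C1, hC1, h1⟩ := near_u (d := d) M₀ s₁ hs₀ (p := 2) (by norm_num)
  have hρ : 0 < 1 / s₀ := by positivity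
  set C2 : ℝ := ((2 * 2 : ℝ) ^ (2 : ℝ) * (1 + 8 * (1 / s₀))) ^ (1 / 2 : ℝ) with hC2
  have hC20 : 0 ≤ C2 := by positivity
  refine ⟨(d * (C1 + C2)) ^ 2 + 16 * (2 * √(6 * (1 / s₀))) + C2 ^ 2 + 1, by positivity, ?_⟩
  intro σ E g0 g1 hE
  exact fmn_core hd (bddDens_u hs₀ g0) hC1 hC20 (fun Λ x y => h1 σ E g0 g1 hE Λ x y)
    (fun Λ x u y => ratio_core (bddDens_u hs₀ g0) (by norm_num) Λ x u y)

/-- **OneTail with a uniform constant** -/
theorem oneTailU {σ s₀ : ℝ} (hs₀ : 0 < s₀) (hσ : s₀ ≤ |σ|) (E : ℝ) :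
    OneTail d (gl σ) E (8 / s₀) := by
  have h0 : σ ≠ 0 := abs_pos.1 (hs₀.trans_le hσ)
  intro Λ x u y t hx hu hy ht
  refine (oneTail h0 E Λ x u y t hx hu hy ht).trans (ENNReal.ofReal_le_ofReal ?_)
  gcongr

/-- **ChnTail with a uniform constant** -/
theorem chnTailU (d : ℕ) (M₀ : ℝ) {s₀ : ℝ} (s₁ : ℝ) (hs₀ : 0 < s₀) : ∃ C : ℝ, 0 < C ∧
    ∀ σ E : ℝ, s₀ ≤ |σ| → |σ| ≤ s₁ → |E| ≤ M₀ → ChnTail d (gl σ) E C := by
  rcases Nat.eq_zero_or_pos d with hd | hd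
  · subst hd
    refine ⟨1, one_pos, fun σ E _ _ _ R n c t _ _ _ => ?_⟩
    simp only [Nat.mul_zero, pow_zero, mul_one, ENNReal.ofReal_one]
    exact prob_le_one
  have hp0 : (0 : ℝ) < ((4 * d : ℕ) : ℝ) := by
    have hd1 : (1 : ℝ) ≤ d := by exact_mod_cast hd
    push_cast; linarith
  obtain ⟨C1, hC1, h1⟩ := near_u (d := d) M₀ s₁ hs₀ hp0
  have hρ : 0 < 1 / s₀ := by positivity
  set C2 : ℝ := ((2 * ((4 * d : ℕ) : ℝ)) ^ ((4 * d : ℕ) : ℝ) * (1 + 8 * (1 / s₀))) ^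
    (1 / ((4 * d : ℕ) : ℝ)) with hC2
  have hC20 : 0 < C2 := by positivity
  refine ⟨(12 * d * (C1 + C2) + 81 * C2) ^ (4 * d), by positivity, ?_⟩
  intro σ E g0 g1 hE
  exact chn_core hd hC1 hC20.le (fun Λ x y => h1 σ E g0 g1 hE Λ x y)
    (fun Λ x u y => ratio_core (bddDens_u hs₀ g0) hp0 Λ x u y)

end Pool.Agent.LE.H54
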